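import Pool.Agent.H361R2.PP.Asm2

/-!
Second moments of repelling Selberg weights, with windows: the slots come in groups, each group has its own window of
positions, the windows are disjoint, and the families of different groups may coincide.
-/

set_option autoImplicit false
set_option maxHeartbeats 4000000

open Finset Pool.Agent.H410R2.AC Pool.Agent.H410R2.EN Pool.Agent.H400R2.AC4
open Pool.Agent.H909R2.EN3

namespace Pool.Agent.T2h81.AS

variable {n : ℕ}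

/-- second moments when the non-diagonal pairs with non-zero coefficients are defects -/
theorem main_genW (hcm : CountMaps) (n : ℕ) (C : ℝ) (KM K : ℕ) (hC : 1 ≤ C)
    (hM : MomK (n + 1) KM) (hKM : KM ≤ K) (hKe : 2 * n + KM ≤ K)
    (hKc : C ^ (2 * n) * (1 + 2 * n + C) ^ (2 * n) * (KM * C ^ KM) ≤ K)
    (b J z0 D0 : ℕ) (P1 P2 B B' : Finset ℕ) (ρ : ℕ → ℕ → ℕ) (κ : ℕ → ℕ → ℝ) (e : ℕ → ℕ)
    (w : ℕ → ℝ) (M : ℕ) (A : ℝ) (err : Finset ℕ → ℝ) (S : Fin n → Finset (Finset ℕ))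
    (g : Fin n → ℝ) (Y : Fin n → ℕ) (Y1 : ℕ) (V δ : ℝ)
    (hset : Setup K b J z0 D0 P1 P2 B ρ κ e w M A err)
    (hD : (2 ^ 2 ^ J) ^ (K * b) * (Y1 * ∏ τ, Y τ) ^ 2 ≤ D0) (hV : 0 < V) (hV1 : V ≤ 1)
    (hδ1 : δ ≤ 1) (hPi : Pi1 P2 ≤ C / V) (hB : (B.card : ℝ) * V1 P1 ≤ C / V)
    (hg : ∀ τ, 0 ≤ g τ ∧ g τ ≤ C)
    (hSP : ∀ τ, ∀ R ∈ S τ, R ⊆ P2)
    (hdel : ∀ U ⊆ B, U.card ≤ 2 * n + 2 → dl e ρ (P1 ∪ P2) U ≤ δ)
    (hY : ∀ τ, 1 ≤ Y τ ∧ ∀ R ∈ S τ, ∏ p ∈ R, p ≤ Y τ)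
    (S1 : Finset (Finset ℕ)) (o : Option ℕ) (hB' : B' ⊆ B)
    (ho : ∀ a, o = some a → a ∈ B ∧ a ∉ B') (hS1 : o = none → S1 = {∅})
    (hS1P : ∀ R ∈ S1, R ⊆ P2)
    (hS1Y : ∀ R ∈ S1, ∏ p ∈ R, p ≤ Y1)
    (c : (Fin n → Option ℕ) → ℝ) (hc : ∀ σ, |c σ| ≤ 1)
    (hdef : ∀ σ ∈ cfg n B', ∀ σ' ∈ cfg n B', c σ ≠ 0 → c σ' ≠ 0 → σ ≠ σ' →
      Defect (extS S1 S σ) (extS S1 S σ') (ext o σ) (ext o σ')) :
    |∑ m ∈ range M, w m * (WW B' c (xx ρ P1 S g m) * (rgo ρ P1 m o * FF ρ S1 o m)) ^ 2 -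
      A * (V1 P1 ^ o.toFinset.card * GG S1 *
        ∑ σ ∈ cfg n B', c σ ^ 2 * occ (fun τ => g τ ^ 2 * (V1 P1 * GG (S τ))) σ)| ≤
    EF n K b J B.card (A * V1 P1 ^ o.toFinset.card) V δ (ET K (P1 ∪ P2) D0 err) := by
  classical
  obtain ⟨hKb, hKz, hP1, hP2, hdens, hw, hA, hE, hρ⟩ := hset
  have hPP : ∀ p ∈ P1 ∪ P2, p.Prime := by
    intro p hp
    rcases Finset.mem_union.1 hp with h | h
    · exact (hP1 p h).1
    · exact (hP2 p h).1
  have hρ1 : ∀ p ∈ P1, ∀ a ∈ B, ρ p a < p := fun p hp => hρ p (Finset.mem_union_left _ hp)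
  have hρ2 : ∀ p ∈ P2, ∀ a ∈ B, ρ p a < p := fun p hp => hρ p (Finset.mem_union_right _ hp)
  have hP1' : ∀ p ∈ P1, p.Prime := fun p hp => (hP1 p hp).1
  have hP2' : ∀ p ∈ P2, p.Prime := fun p hp => (hP2 p hp).1
  have hv := V1_nonneg P1 hP1'
  have hQ0 := Pi1_nonneg P2 hP2'
  have hET0 := ET_nonneg hE hPP KM
  have hETm := ET_mono hE hPP hKM
  have hδ : 0 ≤ δ :=
    le_trans (dl_nonneg e ρ (P1 ∪ P2) ∅ hPP) (hdel ∅ (Finset.empty_subset _) (by simp))
  set v : ℝ := V1 P1 with hvdef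
  set RR : (Fin n → Option ℕ) → ℕ → ℝ := fun σ m => ∏ a ∈ pos (ext o σ), rg ρ P1 a m with hRR
  set ZS : (Fin n → Option ℕ) → ℕ → ℝ := fun σ m => ZZ ρ (extS S1 S σ) (ext o σ) m with hZS
  set MX : (Fin n → Option ℕ) → (Fin n → Option ℕ) → ℝ :=
    fun σ σ' => MM ρ P1 w M (extS S1 S σ) (extS S1 S σ') (ext o σ) (ext o σ') with hMdef
  set D : (Fin n → Option ℕ) → (Fin n → Option ℕ) → ℝ :=
    fun σ σ' => if σ = σ' then A * v ^ (pos (ext o σ) ∪ pos (ext o σ')).card *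
      ∏ t, GG (extS S1 S σ t) else 0 with hD'
  have hcard : ∀ σ ∈ cfg n B', ∀ σ' ∈ cfg n B', (pos (ext o σ) ∪ pos (ext o σ')).card =
      o.toFinset.card + (pos σ ∪ pos σ').card := by
    intro σ hσ σ' hσ'
    rw [pos_ext, pos_ext, ← Finset.union_union_distrib_left, Finset.card_union_of_disjoint]
    rw [Finset.disjoint_left]
    intro a ha hb
    rw [Option.mem_toFinset, Option.mem_def] at ha
    rcases Finset.mem_union.1 hb with h | h
    · exact (ho a ha).2 (pos_sub_of_cfg hσ h)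
    · exact (ho a ha).2 (pos_sub_of_cfg hσ' h)
  -- expansion of the square
  have e1 : ∑ m ∈ range M, w m * (WW B' c (xx ρ P1 S g m) *
      (rgo ρ P1 m o * FF ρ S1 o m)) ^ 2 =
      ∑ σ ∈ cfg n B', ∑ σ' ∈ cfg n B', (c σ * AA g σ * (c σ' * AA g σ')) * MX σ σ' := by
    have e0 : ∀ m, w m * (WW B' c (xx ρ P1 S g m) * (rgo ρ P1 m o * FF ρ S1 o m)) ^ 2 =
        ∑ σ ∈ cfg n B', ∑ σ' ∈ cfg n B', (c σ * AA g σ * (c σ' * AA g σ')) *
          (w m * ((∏ a ∈ pos (ext o σ) ∪ pos (ext o σ'), rg ρ P1 a m) * (ZS σ m * ZS σ' m))) := by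
      intro m
      have : WW B' c (xx ρ P1 S g m) * (rgo ρ P1 m o * FF ρ S1 o m) =
          ∑ σ ∈ cfg n B', c σ * AA g σ * (RR σ m * ZS σ m) := by
        rw [WW, Finset.sum_mul]
        refine Finset.sum_congr rfl (fun σ _ => ?_)
        rw [mul_assoc, term_eq2, hZS, hRR]; ring
      rw [this, sq, Finset.sum_mul_sum, Finset.mul_sum]
      refine Finset.sum_congr rfl (fun σ _ => ?_)
      rw [Finset.mul_sum]
      refine Finset.sum_congr rfl (fun σ' _ => ?_)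
      rw [← prod_rg_union]
      simp only [hRR]
      ring
    rw [Finset.sum_congr rfl (fun m _ => e0 m), Finset.sum_comm]
    refine Finset.sum_congr rfl (fun σ _ => ?_)
    rw [Finset.sum_comm]
    refine Finset.sum_congr rfl (fun σ' _ => ?_)
    rw [hMdef, ← Finset.mul_sum]
    rfl
  have e2 : A * (v ^ o.toFinset.card * GG S1 *
      ∑ σ ∈ cfg n B', c σ ^ 2 * occ (fun τ => g τ ^ 2 * (v * GG (S τ))) σ) =
      ∑ σ ∈ cfg n B', ∑ σ' ∈ cfg n B', (c σ * AA g σ * (c σ' * AA g σ')) * D σ σ' := by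
    rw [Finset.mul_sum, Finset.mul_sum]
    refine Finset.sum_congr rfl (fun σ hσ => ?_)
    rw [Finset.sum_eq_single_of_mem σ hσ (fun σ' _ h => by simp [hD', Ne.symm h])]
    have := prod_GG2 S g S1 σ (inj_of_cfg hσ) v
    have hc2 := hcard σ hσ σ hσ
    rw [Finset.union_self (pos σ)] at hc2
    simp only [hD', if_true, hc2, pow_add]
    calc A * (v ^ o.toFinset.card * GG S1 *
          (c σ ^ 2 * occ (fun τ => g τ ^ 2 * (v * GG (S τ))) σ))
        = A * v ^ o.toFinset.card * c σ ^ 2 *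
          (GG S1 * occ (fun τ => g τ ^ 2 * (v * GG (S τ))) σ) := by ring
      _ = _ := by rw [← this]; ring
  rw [e1, e2, ← Finset.sum_sub_distrib]
  have hbb : (0 : ℝ) ≤ (1 / 2 : ℝ) ^ b := by positivity
  have hexp0 : 0 ≤ Real.exp (KM * δ) - 1 + (1 / 2 : ℝ) ^ b := by
    have := Real.one_le_exp (x := (KM : ℝ) * δ) (by positivity)
    linarith
  have hexp : Real.exp (KM * δ) - 1 + (1 / 2 : ℝ) ^ b ≤
      Real.exp (K * δ) - 1 + (1 / 2 : ℝ) ^ b := by
    have h1 : (KM : ℝ) * δ ≤ K * δ := mul_le_mul_of_nonneg_right (by exact_mod_cast hKM) hδ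
    have := Real.exp_le_exp.2 h1
    linarith
  have hCV : 0 ≤ C / V := by positivity
  have hPk : Pi1 P2 ^ KM ≤ (C / V) ^ KM := pow_le_pow_left₀ hQ0 hPi _
  have hJE : 0 ≤ ((J : ℝ) + 2) * ET KM (P1 ∪ P2) D0 err := by positivity
  -- per pair
  have e3 : ∀ σ ∈ cfg n B', ∀ σ' ∈ cfg n B',
      |(c σ * AA g σ * (c σ' * AA g σ')) * MX σ σ' -
        (c σ * AA g σ * (c σ' * AA g σ')) * D σ σ'| ≤
      (C ^ (2 * n) * (A * v ^ o.toFinset.card * (KM * (C / V) ^ KM *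
        (Real.exp (KM * δ) - 1 + (1 / 2 : ℝ) ^ b)))) * v ^ (pos σ ∪ pos σ').card +
      C ^ (2 * n) * (KM * (C / V) ^ KM * (((J : ℝ) + 2) * ET KM (P1 ∪ P2) D0 err)) := by
    intro σ hσ σ' hσ'
    by_cases hcz : c σ = 0 ∨ c σ' = 0
    · have hz : c σ * AA g σ * (c σ' * AA g σ') = 0 := by
        rcases hcz with h | h
        · rw [h]; ring
        · rw [h]; ring
      rw [hz, zero_mul, zero_mul, sub_zero, abs_zero]
      have hC0 : 0 ≤ C := by linarith
      refine add_nonneg (mul_nonneg (mul_nonneg (by positivity) (mul_nonneg (mul_nonneg hA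
        (by positivity)) (mul_nonneg (by positivity) hexp0))) (by positivity))
        (mul_nonneg (by positivity) (mul_nonneg (by positivity) hJE))
    push Not at hcz
    have hst := std_ext ρ P2 B B' S S1 o hB' ho hS1 hS1P hSP hρ2 σ hσ
    have hst' := std_ext ρ P2 B B' S S1 o hB' ho hS1 hS1P hSP hρ2 σ' hσ'
    have hRb : ∀ σ : Fin n → Option ℕ, ∀ R ∈ Fintype.piFinset (extS S1 S σ),
        ∏ t, ∏ p ∈ R t, p ≤ Y1 * ∏ τ, Y τ := by
      intro σ R hR
      rw [Fintype.mem_piFinset] at hR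
      rw [Fintype.prod_option]
      refine Nat.mul_le_mul ?_ ?_
      · exact hS1Y _ (by simpa [extS] using hR none)
      · refine Finset.prod_le_prod' (fun τ _ => ?_)
        have h1 := hR (some τ)
        simp only [extS, Option.elim_some, absS] at h1
        split_ifs at h1 with h
        · rw [Finset.mem_singleton] at h1
          rw [h1, Finset.prod_empty]
          exact (hY τ).1
        · exact (hY τ).2 _ h1
    have hUB : pos (ext o σ) ∪ pos (ext o σ') ⊆ B := by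
      rw [pos_ext, pos_ext]
      intro a ha
      simp only [Finset.mem_union, Option.mem_toFinset, Option.mem_def] at ha
      rcases ha with (h | h) | (h | h)
      · exact (ho a h).1
      · exact hB' (pos_sub_of_cfg hσ h)
      · exact (ho a h).1
      · exact hB' (pos_sub_of_cfg hσ' h)
    have hcc := hcard σ hσ σ' hσ'
    have hdel' : dl e ρ (P1 ∪ P2) (pos (ext o σ) ∪ pos (ext o σ')) ≤ δ := by
      apply hdel _ hUB
      rw [hcc]
      have h3 := Finset.card_union_le (pos σ) (pos σ')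
      have h4 := card_pos_le_n σ
      have h5 := card_pos_le_n σ'
      have h6 : o.toFinset.card ≤ 1 := by cases o <;> simp
      omega
    have hDD : (2 ^ 2 ^ J) ^ (KM * b) * (Y1 * ∏ τ, Y τ) ^ 2 ≤ D0 := by
      refine le_trans (Nat.mul_le_mul_right _ ?_) hD
      exact Nat.pow_le_pow_right (by positivity) (Nat.mul_le_mul_right _ hKM)
    have hmm := hM (Option (Fin n)) (by simp) b J z0 D0 ((Y1 * ∏ τ, Y τ) ^ 2) P1 P2 ρ κ e w M A err
      (extS S1 S σ) (extS S1 S σ') (ext o σ) (ext o σ') δ (hKM.trans hKb) (hKM.trans hKz) hP1 hP2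
      hdens hw hA hE hDD
      (fun R hR R' hR' => by
        rw [sq]
        exact Nat.mul_le_mul (hRb σ R hR) (hRb σ' R' hR'))
      hst hst' (fun p hp a ha => hρ1 p hp a (hUB ha)) hdel' hδ1
    have hMD : |MX σ σ' - D σ σ'| ≤
        EE KM b J P2 A (v ^ (pos (ext o σ) ∪ pos (ext o σ')).card) δ
          (ET KM (P1 ∪ P2) D0 err) := by
      by_cases h : σ = σ'
      · subst h
        have := hmm.2 rfl rfl
        simp only [hMdef, hD', if_true]
        exact this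
      · have := hmm.1 (hdef σ hσ σ' hσ' hcz.1 hcz.2 h)
        simp only [hMdef, hD', if_neg h, sub_zero]
        exact this
    rw [← mul_sub, abs_mul]
    have hcA : |c σ * AA g σ * (c σ' * AA g σ')| ≤ C ^ (2 * n) := by
      rw [abs_mul, abs_mul, abs_mul]
      have h1 := hc σ
      have h2 := hc σ'
      have h3 : |c σ| * |AA g σ| ≤ C ^ n := by
        have := mul_le_mul_of_nonneg_right h1 (abs_nonneg (AA g σ))
        have h5 := abs_AA_le2 g C hC hg σ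
        linarith
      have h4 : |c σ'| * |AA g σ'| ≤ C ^ n := by
        have := mul_le_mul_of_nonneg_right h2 (abs_nonneg (AA g σ'))
        have h5 := abs_AA_le2 g C hC hg σ'
        linarith
      rw [two_mul, pow_add]
      exact mul_le_mul h3 h4 (by positivity) (by positivity)
    refine (mul_le_mul hcA hMD (abs_nonneg _) (by positivity)).trans ?_
    rw [EE, hcc, pow_add, mul_add]
    refine add_le_add ?_ ?_
    · calc C ^ (2 * n) * (A * (v ^ o.toFinset.card * v ^ (pos σ ∪ pos σ').card) *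
            (KM * Pi1 P2 ^ KM * (Real.exp (KM * δ) - 1 + (1 / 2 : ℝ) ^ b)))
          ≤ C ^ (2 * n) * (A * (v ^ o.toFinset.card * v ^ (pos σ ∪ pos σ').card) *
            (KM * (C / V) ^ KM * (Real.exp (KM * δ) - 1 + (1 / 2 : ℝ) ^ b))) := by gcongr
        _ = _ := by ring
    · gcongr
  have hcardc : ((cfg n B').card : ℝ) ≤ (B.card + 1 : ℝ) ^ n := by
    have h1 := card_cfg_le (n := n) B'
    have h2 : ((cfg n B').card : ℝ) ≤ ((B'.card + 1 : ℕ) : ℝ) ^ n := by exact_mod_cast h1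
    refine h2.trans (pow_le_pow_left₀ (by positivity) ?_ _)
    push_cast
    have : (B'.card : ℝ) ≤ B.card := by exact_mod_cast Finset.card_le_card hB'
    linarith
  have hv0 : 0 < v := V1_pos P1 hP1'
  have hsp := sum_pairs (n := n) hcm B' (C / V) v hv0 (by
    have h1 : (B'.card : ℝ) ≤ B.card := by exact_mod_cast Finset.card_le_card hB'
    nlinarith)
  have hL1 : (1 : ℝ) ≤ (1 + 2 * n + C / V) ^ (2 * n) := by
    refine one_le_pow₀ ?_
    have : (0 : ℝ) ≤ n := by positivity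
    linarith
  have hconst : C ^ (2 * n) * (KM * (C / V) ^ KM) * (1 + 2 * n + C / V) ^ (2 * n) ≤ K / V ^ K := by
    have h1 : (1 + 2 * n + C / V : ℝ) ≤ (1 + 2 * n + C) / V := by
      rw [le_div_iff₀ hV, add_mul, div_mul_cancel₀ _ hV.ne']
      have : (1 + 2 * n : ℝ) * V ≤ (1 + 2 * n) * 1 :=
        mul_le_mul_of_nonneg_left hV1 (by positivity)
      linarith
    have h2 : (1 + 2 * n + C / V : ℝ) ^ (2 * n) ≤ ((1 + 2 * n + C) / V) ^ (2 * n) :=
      pow_le_pow_left₀ (by positivity) h1 _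
    calc C ^ (2 * n) * (KM * (C / V) ^ KM) * (1 + 2 * n + C / V) ^ (2 * n)
        ≤ C ^ (2 * n) * (KM * (C / V) ^ KM) * ((1 + 2 * n + C) / V) ^ (2 * n) := by gcongr
      _ = (C ^ (2 * n) * (1 + 2 * n + C) ^ (2 * n) * (KM * C ^ KM)) / V ^ (2 * n + KM) := by
          rw [div_pow, div_pow, pow_add]
          field_simp
      _ ≤ K / V ^ (2 * n + KM) := by gcongr
      _ ≤ K / V ^ K := by
          refine div_le_div_of_nonneg_left (by positivity) (by positivity) ?_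
          exact pow_le_pow_of_le_one hV.le hV1 hKe
  have hconst2 : C ^ (2 * n) * (KM * (C / V) ^ KM) ≤ K / V ^ K := by
    refine le_trans ?_ hconst
    exact le_mul_of_one_le_right (by positivity) hL1
  calc |∑ σ ∈ cfg n B', (∑ σ' ∈ cfg n B', (c σ * AA g σ * (c σ' * AA g σ')) * MX σ σ' -
        ∑ σ' ∈ cfg n B', (c σ * AA g σ * (c σ' * AA g σ')) * D σ σ')|
      ≤ ∑ σ ∈ cfg n B', ∑ σ' ∈ cfg n B', |(c σ * AA g σ * (c σ' * AA g σ')) * MX σ σ' -
          (c σ * AA g σ * (c σ' * AA g σ')) * D σ σ'| := by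
        refine (Finset.abs_sum_le_sum_abs _ _).trans (Finset.sum_le_sum (fun σ _ => ?_))
        rw [← Finset.sum_sub_distrib]
        exact Finset.abs_sum_le_sum_abs _ _
    _ ≤ ∑ σ ∈ cfg n B', ∑ σ' ∈ cfg n B',
        ((C ^ (2 * n) * (A * v ^ o.toFinset.card * (KM * (C / V) ^ KM *
        (Real.exp (KM * δ) - 1 + (1 / 2 : ℝ) ^ b)))) * v ^ (pos σ ∪ pos σ').card +
        C ^ (2 * n) * (KM * (C / V) ^ KM * (((J : ℝ) + 2) * ET KM (P1 ∪ P2) D0 err))) :=
        Finset.sum_le_sum (fun σ hσ => Finset.sum_le_sum (fun σ' hσ' => e3 σ hσ σ' hσ'))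
    _ = (C ^ (2 * n) * (A * v ^ o.toFinset.card * (KM * (C / V) ^ KM *
        (Real.exp (KM * δ) - 1 + (1 / 2 : ℝ) ^ b)))) *
          (∑ σ ∈ cfg n B', ∑ σ' ∈ cfg n B', v ^ (pos σ ∪ pos σ').card) +
        (cfg n B').card * ((cfg n B').card *
          (C ^ (2 * n) * (KM * (C / V) ^ KM * (((J : ℝ) + 2) * ET KM (P1 ∪ P2) D0 err)))) := by
        simp only [Finset.sum_add_distrib, Finset.sum_const, nsmul_eq_mul, ← Finset.mul_sum]
    _ ≤ (C ^ (2 * n) * (A * v ^ o.toFinset.card * (KM * (C / V) ^ KM *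
        (Real.exp (KM * δ) - 1 + (1 / 2 : ℝ) ^ b)))) * (1 + 2 * n + C / V) ^ (2 * n) +
        (B.card + 1 : ℝ) ^ n * ((B.card + 1 : ℝ) ^ n *
          (C ^ (2 * n) * (KM * (C / V) ^ KM * (((J : ℝ) + 2) * ET KM (P1 ∪ P2) D0 err)))) := by
        gcongr
    _ = (A * v ^ o.toFinset.card) *
          ((C ^ (2 * n) * (KM * (C / V) ^ KM) * (1 + 2 * n + C / V) ^ (2 * n)) *
            (Real.exp (KM * δ) - 1 + (1 / 2 : ℝ) ^ b)) +
        (C ^ (2 * n) * (KM * (C / V) ^ KM)) * (B.card + 1 : ℝ) ^ (2 * n) *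
          (((J : ℝ) + 2) * ET KM (P1 ∪ P2) D0 err) := by ring
    _ ≤ (A * v ^ o.toFinset.card) *
          ((K / V ^ K) * (Real.exp (K * δ) - 1 + (1 / 2 : ℝ) ^ b)) +
        (K / V ^ K) * (B.card + 1 : ℝ) ^ (2 * n + 2) *
          (((J : ℝ) + 2) * ET K (P1 ∪ P2) D0 err) := by
        have hbc : (1 : ℝ) ≤ B.card + 1 := by
          have : (0 : ℝ) ≤ B.card := by positivity
          linarith
        have hpw : (B.card + 1 : ℝ) ^ (2 * n) ≤ (B.card + 1 : ℝ) ^ (2 * n + 2) :=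
          pow_le_pow_right₀ hbc (by omega)
        gcongr


end Pool.Agent.T2h81.AS
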