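import Pool.Agent.T2h81.Eng1

/-!
Second moments of repelling Selberg weights, with windows: two windows.
-/

set_option autoImplicit false
set_option maxHeartbeats 4000000

open Finset Pool.Agent.H410R2.AC Pool.Agent.H410R2.EN Pool.Agent.H400R2.AC4
open Pool.Agent.H909R2.EN3

namespace Pool.Agent.T2h81.AS

variable {n : ℕ}

theorem mem_cfg {B : Finset ℕ} {σ : Fin n → Option ℕ} :
    σ ∈ cfg n B ↔ (∀ τ a, σ τ = some a → a ∈ B) ∧ Inj σ := by
  classical
  unfold cfg
  rw [mem_filter, Fintype.mem_piFinset]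
  constructor
  · rintro ⟨h1, h2⟩
    refine ⟨fun τ a h => ?_, h2⟩
    have := h1 τ
    rw [mem_insertNone] at this
    exact this a h
  · rintro ⟨h1, h2⟩
    refine ⟨fun τ => ?_, h2⟩
    rw [mem_insertNone]
    intro a ha
    exact h1 τ a ha

/-- the first group of slots uses `B1`, the second group uses `B2` -/
def Grp (B1 B2 : Finset ℕ) (σ : Fin (n + n) → Option ℕ) : Prop :=
  (∀ τ : Fin n, ∀ a, σ (Fin.castAdd n τ) = some a → a ∈ B1) ∧
    (∀ τ : Fin n, ∀ a, σ (Fin.natAdd n τ) = some a → a ∈ B2)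

open Classical in
/-- the coefficient of two groups -/
noncomputable def c12 (B1 B2 : Finset ℕ) (σ : Fin (n + n) → Option ℕ) : ℝ :=
  if Grp B1 B2 σ then 1 else 0

theorem abs_c12 (B1 B2 : Finset ℕ) (σ : Fin (n + n) → Option ℕ) : |c12 B1 B2 σ| ≤ 1 := by
  unfold c12
  split_ifs <;> simp

theorem c12_ne {B1 B2 : Finset ℕ} {σ : Fin (n + n) → Option ℕ} (h : c12 B1 B2 σ ≠ 0) :
    Grp B1 B2 σ := by
  unfold c12 at h
  split_ifs at h with h1
  · exact h1
  · exact absurd rfl h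

theorem inj_append {B1 B2 : Finset ℕ} (hd : Disjoint B1 B2) {σ1 σ2 : Fin n → Option ℕ}
    (h1 : σ1 ∈ cfg n B1) (h2 : σ2 ∈ cfg n B2) : Inj (Fin.append σ1 σ2) := by
  rw [mem_cfg] at h1 h2
  intro τ τ' a
  refine Fin.addCases (fun i => ?_) (fun i => ?_) τ
  · refine Fin.addCases (fun j => ?_) (fun j => ?_) τ'
    · rw [Fin.append_left, Fin.append_left]
      intro e1 e2
      rw [h1.2 i j a e1 e2]
    · rw [Fin.append_left, Fin.append_right]
      intro e1 e2
      exact absurd (h2.1 j a e2) (Finset.disjoint_left.1 hd (h1.1 i a e1))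
  · refine Fin.addCases (fun j => ?_) (fun j => ?_) τ'
    · rw [Fin.append_left, Fin.append_right]
      intro e1 e2
      exact absurd (h2.1 i a e1) (Finset.disjoint_left.1 hd (h1.1 j a e2))
    · rw [Fin.append_right, Fin.append_right]
      intro e1 e2
      rw [h2.2 i j a e1 e2]

open Classical in
theorem sum_cfg_pair (B1 B2 : Finset ℕ) (hd : Disjoint B1 B2)
    (T : (Fin (n + n) → Option ℕ) → ℝ) :
    ∑ σ ∈ cfg (n + n) (B1 ∪ B2), c12 B1 B2 σ * T σ =
      ∑ σ1 ∈ cfg n B1, ∑ σ2 ∈ cfg n B2, T (Fin.append σ1 σ2) := by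
  have h1 : ∑ σ ∈ cfg (n + n) (B1 ∪ B2), c12 B1 B2 σ * T σ =
      ∑ σ ∈ (cfg (n + n) (B1 ∪ B2)).filter (fun σ => Grp B1 B2 σ), T σ := by
    rw [sum_filter]
    refine sum_congr rfl fun σ _ => ?_
    unfold c12
    split_ifs <;> simp
  rw [h1, ← sum_product']
  refine sum_nbij' (fun σ => (fun τ => σ (Fin.castAdd n τ), fun τ => σ (Fin.natAdd n τ)))
    (fun p => Fin.append p.1 p.2) ?_ ?_ ?_ ?_ ?_
  · intro σ hσ
    rw [mem_filter, mem_cfg] at hσ
    rw [mem_product, mem_cfg, mem_cfg]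
    refine ⟨⟨hσ.2.1, ?_⟩, ⟨hσ.2.2, ?_⟩⟩
    · intro τ τ' a e1 e2
      exact Fin.castAdd_injective _ _ (hσ.1.2 _ _ a e1 e2)
    · intro τ τ' a e1 e2
      exact Fin.natAdd_injective _ _ (hσ.1.2 _ _ a e1 e2)
  · rintro ⟨σ1, σ2⟩ hp
    rw [mem_product] at hp
    have hi := inj_append hd hp.1 hp.2
    obtain ⟨h2, h3⟩ := hp
    rw [mem_cfg] at h2 h3
    rw [mem_filter, mem_cfg]
    refine ⟨⟨?_, hi⟩, ?_, ?_⟩
    · intro τ a
      refine Fin.addCases (fun i => ?_) (fun i => ?_) τ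
      · rw [Fin.append_left]
        intro e
        exact mem_union_left _ (h2.1 i a e)
      · rw [Fin.append_right]
        intro e
        exact mem_union_right _ (h3.1 i a e)
    · intro τ a
      rw [Fin.append_left]
      exact h2.1 τ a
    · intro τ a
      rw [Fin.append_right]
      exact h3.1 τ a
  · intro σ _
    exact Fin.append_castAdd_natAdd
  · rintro ⟨σ1, σ2⟩ _
    simp only [Fin.append_left, Fin.append_right]
  · intro σ _
    simp only [Fin.append_castAdd_natAdd]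

theorem term_append (x : Fin n → ℕ → ℝ) (σ1 σ2 : Fin n → Option ℕ) :
    term (Fin.append x x) (Fin.append σ1 σ2) = term x σ1 * term x σ2 := by
  unfold term
  rw [Fin.prod_univ_add]
  congr 1
  · refine prod_congr rfl fun τ _ => ?_
    rw [Fin.append_left, Fin.append_left]
  · refine prod_congr rfl fun τ _ => ?_
    rw [Fin.append_right, Fin.append_right]

theorem occ_append (q : Fin n → ℝ) (σ1 σ2 : Fin n → Option ℕ) :
    occ (Fin.append q q) (Fin.append σ1 σ2) = occ q σ1 * occ q σ2 := by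
  unfold occ
  rw [Fin.prod_univ_add]
  congr 1
  · refine prod_congr rfl fun τ _ => ?_
    rw [Fin.append_left, Fin.append_left]
  · refine prod_congr rfl fun τ _ => ?_
    rw [Fin.append_right, Fin.append_right]

theorem WW_pair (B1 B2 : Finset ℕ) (hd : Disjoint B1 B2) (x : Fin n → ℕ → ℝ) :
    WW (B1 ∪ B2) (c12 B1 B2) (Fin.append x x) =
      WW B1 (fun _ => 1) x * WW B2 (fun _ => 1) x := by
  unfold WW
  rw [sum_cfg_pair B1 B2 hd, sum_mul_sum]
  refine sum_congr rfl fun σ1 _ => sum_congr rfl fun σ2 _ => ?_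
  rw [term_append, one_mul, one_mul]

theorem main_pair (B1 B2 : Finset ℕ) (hd : Disjoint B1 B2) (q : Fin n → ℝ) :
    ∑ σ ∈ cfg (n + n) (B1 ∪ B2), c12 B1 B2 σ ^ 2 * occ (Fin.append q q) σ =
      (∑ σ ∈ cfg n B1, occ q σ) * ∑ σ ∈ cfg n B2, occ q σ := by
  have h1 : ∑ σ ∈ cfg (n + n) (B1 ∪ B2), c12 B1 B2 σ ^ 2 * occ (Fin.append q q) σ =
      ∑ σ ∈ cfg (n + n) (B1 ∪ B2), c12 B1 B2 σ * occ (Fin.append q q) σ := by
    refine sum_congr rfl fun σ _ => ?_
    unfold c12
    split_ifs <;> simp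
  rw [h1, sum_cfg_pair B1 B2 hd, sum_mul_sum]
  refine sum_congr rfl fun σ1 _ => sum_congr rfl fun σ2 _ => ?_
  rw [occ_append]

/-- slots used at the same position by two configurations have disjoint families or coincide -/
lemma defect_extW {m : ℕ} (B B' : Finset ℕ) (S : Fin m → Finset (Finset ℕ))
    (S1 : Finset (Finset ℕ)) (o : Option ℕ)
    (ho : ∀ a, o = some a → a ∈ B ∧ a ∉ B') (hS0 : ∀ τ, ∅ ∉ S τ)
    (σ σ' : Fin m → Option ℕ) (hσ : σ ∈ cfg m B') (hσ' : σ' ∈ cfg m B') (hne : σ ≠ σ')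
    (hSd : ∀ τ τ' a, σ τ = some a → σ' τ' = some a → τ ≠ τ' → Disjoint (S τ) (S τ')) :
    Defect (extS S1 S σ) (extS S1 S σ') (ext o σ) (ext o σ') := by
  obtain ⟨τ, hτ⟩ := Function.ne_iff.1 hne
  cases h : σ τ with
  | some a =>
    have haB : a ∈ B' := pos_sub_of_cfg hσ ((mem_pos σ a).2 ⟨τ, h⟩)
    by_cases ha : a ∈ pos (ext o σ')
    · rw [mem_pos] at ha
      obtain ⟨t, ht⟩ := ha
      cases t with
      | none =>
        simp only [Pool.Agent.H400R2.AC4.ext, Option.elim_none] at ht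
        exact absurd haB (ho a ht).2
      | some τ' =>
        simp only [Pool.Agent.H400R2.AC4.ext, Option.elim_some] at ht
        right; right
        refine ⟨some τ, some τ', a, by simp [Pool.Agent.H400R2.AC4.ext, h], by simp [Pool.Agent.H400R2.AC4.ext, ht], ?_⟩
        simp only [extS, Option.elim_some, absS, h, ht]
        simp only [reduceCtorEq, if_false]
        refine hSd τ τ' a h ht ?_
        rintro rfl
        exact hτ (h.trans ht.symm)
    · left
      refine ⟨some τ, a, by simp [Pool.Agent.H400R2.AC4.ext, h], ha, ?_⟩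
      simp only [extS, Option.elim_some, absS, h, reduceCtorEq, if_false]
      exact hS0 τ
  | none =>
    cases h' : σ' τ with
    | none => exact absurd (h.trans h'.symm) hτ
    | some a =>
      have haB : a ∈ B' := pos_sub_of_cfg hσ' ((mem_pos σ' a).2 ⟨τ, h'⟩)
      by_cases ha : a ∈ pos (ext o σ)
      · rw [mem_pos] at ha
        obtain ⟨t, ht⟩ := ha
        cases t with
        | none =>
          simp only [Pool.Agent.H400R2.AC4.ext, Option.elim_none] at ht
          exact absurd haB (ho a ht).2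
        | some τ' =>
          simp only [Pool.Agent.H400R2.AC4.ext, Option.elim_some] at ht
          right; right
          refine ⟨some τ', some τ, a, by simp [Pool.Agent.H400R2.AC4.ext, ht], by simp [Pool.Agent.H400R2.AC4.ext, h'], ?_⟩
          simp only [extS, Option.elim_some, absS, ht, h']
          simp only [reduceCtorEq, if_false]
          refine hSd τ' τ a ht h' ?_
          rintro rfl
          exact hτ (ht.trans h'.symm)
      · right; left
        refine ⟨some τ, a, by simp [Pool.Agent.H400R2.AC4.ext, h'], ha, ?_⟩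
        simp only [extS, Option.elim_some, absS, h', reduceCtorEq, if_false]
        exact hS0 τ

lemma defect_pair (B1 B2 B : Finset ℕ) (hd : Disjoint B1 B2) (S : Fin n → Finset (Finset ℕ))
    (hS0 : ∀ τ, ∅ ∉ S τ) (hSd : ∀ τ τ', τ ≠ τ' → Disjoint (S τ) (S τ'))
    (σ σ' : Fin (n + n) → Option ℕ) (hσ : σ ∈ cfg (n + n) (B1 ∪ B2))
    (hσ' : σ' ∈ cfg (n + n) (B1 ∪ B2)) (hc : c12 B1 B2 σ ≠ 0) (hc' : c12 B1 B2 σ' ≠ 0)
    (hne : σ ≠ σ') :
    Defect (extS {∅} (Fin.append S S) σ) (extS {∅} (Fin.append S S) σ') (ext none σ)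
      (ext none σ') := by
  have h1 := c12_ne hc
  have h2 := c12_ne hc'
  refine defect_extW B (B1 ∪ B2) (Fin.append S S) {∅} none (fun a h => by simp at h) ?_ σ σ' hσ hσ'
    hne ?_
  · intro τ
    refine Fin.addCases (fun i => ?_) (fun i => ?_) τ
    · rw [Fin.append_left]; exact hS0 i
    · rw [Fin.append_right]; exact hS0 i
  · intro τ τ' a
    refine Fin.addCases (fun i => ?_) (fun i => ?_) τ
    · refine Fin.addCases (fun j => ?_) (fun j => ?_) τ'
      · intro e1 e2 hne'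
        rw [Fin.append_left, Fin.append_left]
        apply hSd
        rintro rfl
        exact hne' rfl
      · intro e1 e2 _
        exact absurd (h2.2 j a e2) (Finset.disjoint_left.1 hd (h1.1 i a e1))
    · refine Fin.addCases (fun j => ?_) (fun j => ?_) τ'
      · intro e1 e2 _
        exact absurd (h1.2 i a e1) (Finset.disjoint_left.1 hd (h2.1 j a e2))
      · intro e1 e2 hne'
        rw [Fin.append_right, Fin.append_right]
        apply hSd
        rintro rfl
        exact hne' rfl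

/-- second moments for two windows -/
def PairW : Prop := ∀ (n : ℕ) (C : ℝ), 1 ≤ C → ∃ K : ℕ, 1 ≤ K ∧
  ∀ (b J z0 D0 : ℕ) (P1 P2 B1 B2 : Finset ℕ) (ρ : ℕ → ℕ → ℕ) (κ : ℕ → ℕ → ℝ) (e : ℕ → ℕ)
    (w : ℕ → ℝ) (M : ℕ) (A : ℝ) (err : Finset ℕ → ℝ) (S : Fin n → Finset (Finset ℕ))
    (g : Fin n → ℝ) (Y : Fin n → ℕ) (V δ : ℝ),
    Setup K b J z0 D0 P1 P2 (B1 ∪ B2) ρ κ e w M A err → Disjoint B1 B2 →
    (2 ^ 2 ^ J) ^ (K * b) * ((∏ τ, Y τ) * ∏ τ, Y τ) ^ 2 ≤ D0 → 0 < V → V ≤ 1 → δ ≤ 1 →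
    Pi1 P2 ≤ C / V → ((B1 ∪ B2).card : ℝ) * V1 P1 ≤ C / V → (∀ τ, 0 ≤ g τ ∧ g τ ≤ C) →
    (∀ τ, ∀ R ∈ S τ, R ⊆ P2) → (∀ τ, ∅ ∉ S τ) → (∀ τ τ', τ ≠ τ' → Disjoint (S τ) (S τ')) →
    (∀ U ⊆ B1 ∪ B2, U.card ≤ 4 * n + 2 → dl e ρ (P1 ∪ P2) U ≤ δ) →
    (∀ τ, 1 ≤ Y τ ∧ ∀ R ∈ S τ, ∏ p ∈ R, p ≤ Y τ) →
      |∑ m ∈ range M, w m * (WW B1 (fun _ => 1) (xx ρ P1 S g m) *
          WW B2 (fun _ => 1) (xx ρ P1 S g m)) ^ 2 -
        A * ((∑ σ ∈ cfg n B1, occ (fun τ => g τ ^ 2 * (V1 P1 * GG (S τ))) σ) *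
          ∑ σ ∈ cfg n B2, occ (fun τ => g τ ^ 2 * (V1 P1 * GG (S τ))) σ)| ≤
      EF (n + n) K b J (B1 ∪ B2).card A V δ (ET K (P1 ∪ P2) D0 err)

theorem xx_append (ρ : ℕ → ℕ → ℕ) (P1 : Finset ℕ) (S : Fin n → Finset (Finset ℕ))
    (g : Fin n → ℝ) (m : ℕ) :
    xx ρ P1 (Fin.append S S) (Fin.append g g) m = Fin.append (xx ρ P1 S g m) (xx ρ P1 S g m) := by
  funext τ a
  refine Fin.addCases (fun i => ?_) (fun i => ?_) τ
  · rw [Fin.append_left]
    unfold xx
    rw [Fin.append_left, Fin.append_left]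
  · rw [Fin.append_right]
    unfold xx
    rw [Fin.append_right, Fin.append_right]

theorem q_append (v : ℝ) (S : Fin n → Finset (Finset ℕ)) (g : Fin n → ℝ) :
    (fun τ : Fin (n + n) => (Fin.append g g) τ ^ 2 * (v * GG ((Fin.append S S) τ))) =
      Fin.append (fun τ => g τ ^ 2 * (v * GG (S τ))) (fun τ => g τ ^ 2 * (v * GG (S τ))) := by
  funext τ
  refine Fin.addCases (fun i => ?_) (fun i => ?_) τ
  · rw [Fin.append_left, Fin.append_left, Fin.append_left]
  · rw [Fin.append_right, Fin.append_right, Fin.append_right]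

theorem pairW_of : CountMaps → MomW → PairW := by
  intro hcm hmom n C hC
  obtain ⟨KM, hKM1, hM⟩ := hmom (n + n + 1)
  obtain ⟨K0, hK0⟩ := exists_nat_ge (C ^ (2 * (n + n)) * (1 + 2 * ((n + n : ℕ) : ℝ) + C) ^
    (2 * (n + n)) * (KM * C ^ KM))
  refine ⟨K0 + (2 * (n + n) + KM), by omega, ?_⟩
  intro b J z0 D0 P1 P2 B1 B2 ρ κ e w M A err S g Y V δ hset hd hD hV hV1 hδ1 hPi hB hg hSP hS0
    hSd hdel hY
  have hKc : C ^ (2 * (n + n)) * (1 + 2 * ((n + n : ℕ) : ℝ) + C) ^ (2 * (n + n)) *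
      (KM * C ^ KM) ≤ ((K0 + (2 * (n + n) + KM) : ℕ) : ℝ) := by
    refine hK0.trans ?_
    exact_mod_cast Nat.le_add_right _ _
  have h := main_genW hcm (n + n) C KM (K0 + (2 * (n + n) + KM)) hC hM (by omega) (by omega) hKc
    b J z0 D0 P1 P2 (B1 ∪ B2) (B1 ∪ B2) ρ κ e w M A err (Fin.append S S) (Fin.append g g)
    (Fin.append Y Y) 1 V δ hset (by
      rw [Fin.prod_univ_add, one_mul]
      simp only [Fin.append_left, Fin.append_right]
      exact hD) hV hV1 hδ1 hPi hB (by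
      intro τ
      refine Fin.addCases (fun i => ?_) (fun i => ?_) τ
      · rw [Fin.append_left]; exact hg i
      · rw [Fin.append_right]; exact hg i) (by
      intro τ
      refine Fin.addCases (fun i => ?_) (fun i => ?_) τ
      · rw [Fin.append_left]; exact hSP i
      · rw [Fin.append_right]; exact hSP i)
    (fun U hU hc => hdel U hU (hc.trans (by omega))) (by
      intro τ
      refine Fin.addCases (fun i => ?_) (fun i => ?_) τ
      · rw [Fin.append_left, Fin.append_left]; exact hY i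
      · rw [Fin.append_right, Fin.append_right]; exact hY i)
    {∅} none (Finset.Subset.refl _) (fun a h => by simp at h) (fun _ => rfl)
    (fun R hR => by rw [Finset.mem_singleton] at hR; rw [hR]; exact Finset.empty_subset _)
    (fun R hR => by rw [Finset.mem_singleton] at hR; rw [hR, Finset.prod_empty])
    (c12 B1 B2) (abs_c12 B1 B2)
    (fun σ hσ σ' hσ' h1 h2 h3 => defect_pair B1 B2 (B1 ∪ B2) hd S hS0 hSd σ σ' hσ hσ' h1 h2 h3)
  simp only [rgo, Option.elim_none, FF_empty, mul_one, GG_empty, one_mul,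
    Option.toFinset_none, Finset.card_empty, pow_zero] at h
  rw [q_append, main_pair B1 B2 hd] at h
  simp only [xx_append, WW_pair B1 B2 hd] at h
  exact h

end Pool.Agent.T2h81.AS
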