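import Pool.Agent.T2h81.Eng5

/-!
Almost all short intervals contain prime-free windows: elementary part (Chebyshev's inequality).
-/

set_option autoImplicit false
set_option maxHeartbeats 4000000

open Finset

namespace Pool.Agent.T2h81.AS

/-- variance of a sum of almost uncorrelated quantities -/
theorem variance_le (S : Finset ℕ) (J : ℕ) (F : ℕ → ℕ → ℝ) (a : ℕ → ℝ) (Ω s C Z : ℝ)
    (hΩ : 0 ≤ Ω) (hs0 : 0 ≤ s) (hs1 : s ≤ 1) (ha : ∀ i < J, 1 ≤ a i ∧ a i ≤ Z)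
    (hF : ∀ i < J, ∀ n ∈ S, 0 ≤ F i n)
    (hS : (S.card : ℝ) ≤ Ω + s * Ω)
    (h1 : ∀ i < J, |∑ n ∈ S, F i n - Ω * a i| ≤ s * Ω)
    (h2 : ∀ i < J, ∀ j < J, i ≠ j → |∑ n ∈ S, F i n * F j n - Ω * (a i * a j)| ≤ s * Ω)
    (h4 : ∀ i < J, ∑ n ∈ S, F i n ^ 2 ≤ C * Ω) (hC : 0 ≤ C) (hZ : 1 ≤ Z) :
    ∑ n ∈ S, (∑ i ∈ range J, (F i n - a i)) ^ 2 ≤
      (J * (C + 2 * Z ^ 2) + J ^ 2 * (s * (1 + Z) ^ 2)) * Ω := by
  have e1 : ∑ n ∈ S, (∑ i ∈ range J, (F i n - a i)) ^ 2 =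
      ∑ i ∈ range J, ∑ j ∈ range J, ∑ n ∈ S, (F i n - a i) * (F j n - a j) := by
    have : ∀ n ∈ S, (∑ i ∈ range J, (F i n - a i)) ^ 2 =
        ∑ i ∈ range J, ∑ j ∈ range J, (F i n - a i) * (F j n - a j) := by
      intro n _
      rw [sq, sum_mul_sum]
    rw [sum_congr rfl this, sum_comm]
    refine sum_congr rfl fun i _ => ?_
    rw [sum_comm]
  have e2 : ∀ i j, ∑ n ∈ S, (F i n - a i) * (F j n - a j) =
      ∑ n ∈ S, F i n * F j n - a j * ∑ n ∈ S, F i n - a i * ∑ n ∈ S, F j n +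
        a i * a j * S.card := by
    intro i j
    rw [mul_sum, mul_sum, ← sum_sub_distrib, ← sum_sub_distrib, mul_comm (a i * a j) _,
      ← nsmul_eq_mul, ← sum_const, ← sum_add_distrib]
    refine sum_congr rfl fun n _ => ?_
    ring
  have hoff : ∀ i < J, ∀ j < J, i ≠ j →
      ∑ n ∈ S, (F i n - a i) * (F j n - a j) ≤ s * (1 + Z) ^ 2 * Ω := by
    intro i hi j hj hij
    rw [e2]
    have k1 := (abs_le.1 (h2 i hi j hj hij)).2
    have k2 := (abs_le.1 (h1 i hi)).1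
    have k3 := (abs_le.1 (h1 j hj)).1
    obtain ⟨ai, ai'⟩ := ha i hi
    obtain ⟨aj, aj'⟩ := ha j hj
    have k4 : a j * (Ω * a i - s * Ω) ≤ a j * ∑ n ∈ S, F i n :=
      mul_le_mul_of_nonneg_left (by linarith) (by linarith)
    have k5 : a i * (Ω * a j - s * Ω) ≤ a i * ∑ n ∈ S, F j n :=
      mul_le_mul_of_nonneg_left (by linarith) (by linarith)
    have k6 : a i * a j * S.card ≤ a i * a j * (Ω + s * Ω) :=
      mul_le_mul_of_nonneg_left hS (by nlinarith)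
    have k7 : (1 + a i) * (1 + a j) ≤ (1 + Z) ^ 2 := by
      rw [sq]
      exact mul_le_mul (by linarith) (by linarith) (by linarith) (by linarith)
    have k8 : s * Ω * ((1 + a i) * (1 + a j)) ≤ s * Ω * (1 + Z) ^ 2 :=
      mul_le_mul_of_nonneg_left k7 (by positivity)
    nlinarith
  have hdiag : ∀ i < J, ∑ n ∈ S, (F i n - a i) * (F i n - a i) ≤ (C + 2 * Z ^ 2) * Ω := by
    intro i hi
    rw [e2]
    have k1 := h4 i hi
    obtain ⟨ai, ai'⟩ := ha i hi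
    have k2 : 0 ≤ ∑ n ∈ S, F i n := sum_nonneg fun n hn => hF i hi n hn
    have k3 : 0 ≤ a i * ∑ n ∈ S, F i n := mul_nonneg (by linarith) k2
    have k4 : a i * a i * S.card ≤ Z ^ 2 * (2 * Ω) := by
      have k5 : a i * a i ≤ Z ^ 2 := by nlinarith
      have k6 : (S.card : ℝ) ≤ 2 * Ω := by nlinarith
      exact mul_le_mul k5 k6 (Nat.cast_nonneg _) (by positivity)
    have k7 : ∑ n ∈ S, F i n * F i n = ∑ n ∈ S, F i n ^ 2 := sum_congr rfl fun n _ => by ring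
    rw [k7]
    linarith
  rw [e1]
  have hX0 : 0 ≤ s * (1 + Z) ^ 2 * Ω := by positivity
  calc ∑ i ∈ range J, ∑ j ∈ range J, ∑ n ∈ S, (F i n - a i) * (F j n - a j)
      ≤ ∑ i ∈ range J, ∑ j ∈ range J, ((if i = j then (C + 2 * Z ^ 2) * Ω else 0) +
          s * (1 + Z) ^ 2 * Ω) := by
        refine sum_le_sum fun i hi => sum_le_sum fun j hj => ?_
        rw [mem_range] at hi hj
        by_cases hij : i = j
        · subst hij
          rw [if_pos rfl]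
          have := hdiag i hi
          linarith
        · rw [if_neg hij, zero_add]
          exact hoff i hi j hj hij
    _ = ∑ i ∈ range J, ((C + 2 * Z ^ 2) * Ω + J * (s * (1 + Z) ^ 2 * Ω)) := by
        refine sum_congr rfl fun i hi => ?_
        rw [sum_add_distrib, sum_ite_eq, if_pos hi, sum_const, card_range, nsmul_eq_mul]
    _ = _ := by
        rw [sum_const, card_range, nsmul_eq_mul]
        ring

/-- Chebyshev's inequality, and a count of the exceptional points -/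
theorem exc_le (S : Finset ℕ) (J : ℕ) (hJ : 0 < J) (F : ℕ → ℕ → ℝ) (a : ℕ → ℝ) (N : ℕ → ℝ)
    (Ω s C Z κ : ℝ) (hΩ : 0 ≤ Ω) (ha : ∀ i < J, 1 ≤ a i)
    (hV : ∑ n ∈ S, (∑ i ∈ range J, (F i n - a i)) ^ 2 ≤
      (J * (C + 2 * Z ^ 2) + J ^ 2 * (s * (1 + Z) ^ 2)) * Ω)
    (hC : 0 ≤ C) (hs0 : 0 ≤ s)
    (hN0 : ∀ n ∈ S, 0 ≤ N n) (hN : ∑ n ∈ S, N n ≤ κ * (∑ i ∈ range J, a i) * Ω)
    (Bd : Finset ℕ) (hBd : Bd ⊆ S) (hB : ∀ n ∈ Bd, ∑ i ∈ range J, F i n ≤ N n) :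
    (Bd.card : ℝ) ≤ (4 * (C + 2 * Z ^ 2) / J + 4 * (s * (1 + Z) ^ 2) + 2 * κ) * Ω := by
  have hJ0 : (0 : ℝ) < J := by exact_mod_cast hJ
  set A := ∑ i ∈ range J, a i with hA
  have hAJ : (J : ℝ) ≤ A := by
    calc (J : ℝ) = ∑ i ∈ range J, (1 : ℝ) := by rw [sum_const, card_range, nsmul_eq_mul, mul_one]
      _ ≤ A := sum_le_sum fun i hi => ha i (mem_range.1 hi)
  have hA0 : 0 < A := by linarith
  set B1 := Bd.filter (fun n => ∑ i ∈ range J, F i n < A / 2) with hB1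
  set B2 := Bd.filter (fun n => ¬ ∑ i ∈ range J, F i n < A / 2) with hB2
  have hcard : (Bd.card : ℝ) = B1.card + B2.card := by
    rw [hB1, hB2]
    exact_mod_cast (card_filter_add_card_filter_not (s := Bd) _).symm
  have h1 : (B1.card : ℝ) * (A / 2) ^ 2 ≤
      (J * (C + 2 * Z ^ 2) + J ^ 2 * (s * (1 + Z) ^ 2)) * Ω := by
    refine le_trans ?_ hV
    calc (B1.card : ℝ) * (A / 2) ^ 2 = ∑ n ∈ B1, (A / 2) ^ 2 := by
          rw [sum_const, nsmul_eq_mul]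
      _ ≤ ∑ n ∈ B1, (∑ i ∈ range J, (F i n - a i)) ^ 2 := by
          refine sum_le_sum fun n hn => ?_
          have h3 := (mem_filter.1 hn).2
          have h4 : ∑ i ∈ range J, (F i n - a i) = ∑ i ∈ range J, F i n - A := by
            rw [sum_sub_distrib]
          rw [h4]
          nlinarith
      _ ≤ _ := sum_le_sum_of_subset_of_nonneg ((filter_subset _ _).trans hBd)
          fun n _ _ => sq_nonneg _
  have h2 : (B2.card : ℝ) * (A / 2) ≤ κ * A * Ω := by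
    refine le_trans ?_ hN
    calc (B2.card : ℝ) * (A / 2) = ∑ n ∈ B2, A / 2 := by rw [sum_const, nsmul_eq_mul]
      _ ≤ ∑ n ∈ B2, N n := by
          refine sum_le_sum fun n hn => ?_
          have h3 := mem_filter.1 hn
          exact (not_lt.1 h3.2).trans (hB n h3.1)
      _ ≤ _ := sum_le_sum_of_subset_of_nonneg ((filter_subset _ _).trans hBd)
          fun n hn _ => hN0 n hn
  have h3 : (B2.card : ℝ) ≤ 2 * κ * Ω := by
    have h4 : (B2.card : ℝ) * (A / 2) ≤ (2 * κ * Ω) * (A / 2) := by linarith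
    exact le_of_mul_le_mul_right h4 (by positivity)
  have h4 : (B1.card : ℝ) ≤ (4 * (C + 2 * Z ^ 2) / J + 4 * (s * (1 + Z) ^ 2)) * Ω := by
    have h5 : (B1.card : ℝ) * ((J : ℝ) ^ 2 / 4) ≤ (B1.card : ℝ) * (A / 2) ^ 2 := by
      apply mul_le_mul_of_nonneg_left _ (Nat.cast_nonneg _)
      nlinarith
    have h6 : (B1.card : ℝ) * ((J : ℝ) ^ 2 / 4) ≤
        ((4 * (C + 2 * Z ^ 2) / J + 4 * (s * (1 + Z) ^ 2)) * Ω) * ((J : ℝ) ^ 2 / 4) := by
      refine (h5.trans h1).trans (le_of_eq ?_)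
      field_simp
    exact le_of_mul_le_mul_right h6 (by positivity)
  rw [hcard]
  linarith

end Pool.Agent.T2h81.AS
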