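import Pool.Agent.T2h81.Fin1

/-!
Almost all short intervals contain prime-free windows: one class.
-/

set_option autoImplicit false
set_option maxHeartbeats 4000000
set_option linter.unusedVariables false

open Finset

namespace Pool.Agent.T2h81.AS

open Pool.Agent.H361R2.PP
open Pool.Agent.H410R2.AC (wt GG cfg term WW pos Inj coef)

/-- the shifts of the window `i` which survive the small primes -/
noncomputable def win (X b : ℕ) (Λ lam : ℝ) (i : ℕ) : Finset ℕ :=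
  (BB X b ⌊Λ * Real.log X⌋₊).filter (fun a : ℕ => (i : ℝ) * (lam * Real.log X) < a ∧
    (a : ℝ) ≤ ((i : ℝ) + 1) * (lam * Real.log X))

/-- each of the first `J` windows after `n` contains a prime -/
def Bad (lam : ℝ) (J X n : ℕ) : Prop :=
  ∀ i < J, ∃ a : ℕ, (i : ℝ) * (lam * Real.log X) < a ∧ (a : ℝ) ≤ ((i : ℝ) + 1) * (lam * Real.log X) ∧
    (n + a).Prime

section

variable {t : ℕ} {u : Fin t → ℝ} {c0 δ : ℝ} {X : ℕ} {β : Fin t → ℝ} {D : Dat t u c0 δ X}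

theorem WW_empty (x : Fin t → ℕ → ℝ) : WW (∅ : Finset ℕ) (fun _ => 1) x = 1 := by
  unfold WW
  have h : cfg t (∅ : Finset ℕ) = {fun _ => none} := by
    ext σ
    rw [mem_cfg, mem_singleton]
    constructor
    · rintro ⟨h1, -⟩
      funext τ
      cases h : σ τ with
      | none => rfl
      | some a => exact absurd (h1 τ a h) (notMem_empty a)
    · rintro rfl
      refine ⟨fun τ a h => by simp at h, fun τ τ' a h => by simp at h⟩
  rw [h, sum_singleton, one_mul]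
  unfold term
  simp

theorem ZZ_empty : ZZ D (∅ : Finset ℕ) (fun _ => 1) = 1 := by
  rw [ZZ_one]
  have := WW_empty (t := t) (qq D)
  unfold WW at this
  simpa using this

theorem xx_prime' (hJ : 2 ^ 2 ^ JJ δ X ≤ X) (hg : ∀ τ, D.g τ = β τ / GG (D.S τ))
    (hgg : ∀ τ, 0 < GG (D.S τ)) {n a : ℕ} (hn : X ≤ n) (ha : 1 ≤ a)
    (hp : (n + a).Prime) (τ : Fin t) : xx D n τ a = D.cf a * β τ := by
  unfold xx
  rw [rg_prime (P1_lt hJ hn ha) hp, FS_prime (P2_lt hn ha) (fun R hR => (D.hS τ R hR).1) hp,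
    hg τ, one_mul]
  have := (hgg τ).ne'
  field_simp

theorem spec_prime' {θ : ℝ} (hJ : 2 ^ 2 ^ JJ δ X ≤ X) {n a : ℕ} (hn : X ≤ n) (ha : 1 ≤ a)
    (hp : (n + a).Prime) : spec δ θ X a n = GG (S1 δ θ X) := by
  unfold spec
  rw [rg_prime (P1_lt hJ hn ha) hp, FS_prime (P2_lt hn ha) S1_sub hp, one_mul]

end

/-- the weight at the primes of a window -/
theorem E2w {t : ℕ} {u β : Fin t → ℝ} {δ θ s η : ℝ} {X b : ℕ} (hCol : Col) (hCob : Cob)
    (hMni : Mni) (D : Dat t u 1 δ X) (hcf : ∀ a, D.cf a = -1) (hJ : 2 ^ 2 ^ JJ δ X ≤ X)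
    (hβ0 : ∀ τ, 0 ≤ β τ) (hβ1 : ∑ τ, β τ = 1)
    (hg : ∀ τ, D.g τ = β τ / GG (D.S τ)) (hgg : ∀ τ, 0 < GG (D.S τ)) (hX : 1 ≤ X)
    (hθ : θ ≤ 1 / 32) (hs : 0 ≤ s) (hη0 : 0 ≤ η) (hv0 : 0 ≤ VV δ X)
    (B : Finset ℕ) (hB1 : ∀ a ∈ B, 1 ≤ a)
    (hη : ∀ τ, ∑ a ∈ B, qq D τ a ≤ η)
    (hsm : ∀ c : (Fin t → Option ℕ) → ℝ, (∀ σ, |c σ| ≤ 1) → ∀ a ∈ B,
      |∑ n ∈ SI X b, (spec δ θ X a n * WW (B.erase a) c (xx D n)) ^ 2 -
        (X : ℝ) / Wm X * (VV δ X * GG (S1 δ θ X) * ZZ D (B.erase a) c)| ≤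
        s * ((X : ℝ) / Wm X * VV δ X)) {a : ℕ} (ha : a ∈ B) :
    ∑ n ∈ SP X b a, WW B (fun _ => 1) (xx D n) ^ 2 ≤
      (X : ℝ) / Wm X * (VV δ X / GG (S1 δ θ X)) * ((η + s) * ZZ D B (fun _ => 1)) := by
  have ha1 : 1 ≤ a := hB1 a ha
  set G := GG (S1 δ θ X) with hG
  have hG1 : 1 ≤ G := GG1_ge hX hθ
  have hGy : ∀ y : ℝ, y ^ 2 = 1 / G ^ 2 * (G * y) ^ 2 := by
    intro y
    have : G ≠ 0 := by linarith
    field_simp
  have hcob := (hCob t β hβ0 hβ1)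
  set B' := B.erase a with hB'
  have hB's : B' ⊆ B := erase_subset _ _
  have hco : co1 (-1) β = coef β := by
    funext σ
    exact (hcob.1 σ).1
  have hc0 : ∀ σ, |coef β σ| ≤ 1 := by
    intro σ
    obtain ⟨-, h1, h2⟩ := hcob.1 σ
    rw [abs_of_nonneg h1]
    exact h2
  have h1 : ∑ n ∈ SP X b a, WW B (fun _ => 1) (xx D n) ^ 2 ≤
      1 / G ^ 2 * ∑ n ∈ SI X b, (spec δ θ X a n * WW B' (coef β) (xx D n)) ^ 2 := by
    rw [mul_sum]
    calc ∑ n ∈ SP X b a, WW B (fun _ => 1) (xx D n) ^ 2 =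
        ∑ n ∈ SP X b a, 1 / G ^ 2 * (spec δ θ X a n * WW B' (coef β) (xx D n)) ^ 2 := by
          refine sum_congr rfl fun n hn => ?_
          rw [mem_SP] at hn
          rw [(hCol t B β (xx D n) D.cf).1 a ha
            (fun τ => xx_prime' hJ hg hgg hn.1 ha1 hn.2.2.2 τ), hcf,
            hco, spec_prime' hJ hn.1 ha1 hn.2.2.2]
          exact hGy _
      _ ≤ _ := sum_le_sum_of_subset_of_nonneg SP_sub fun n _ _ => by positivity
  have h2 := hsm (coef β) hc0 a ha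
  set Ω := (X : ℝ) / Wm X with hΩ
  have hΩ0 : 0 ≤ Ω := Om_nonneg X
  obtain ⟨hM1, -, hM⟩ := hMni t B β (qq D) η hη0 hβ0 hβ1 (fun τ a => qq_nonneg hv0 τ a) hη
  obtain ⟨-, hm2, -, -⟩ := hM B' hB's
  rw [ZZ_one]
  set M := ∑ σ ∈ cfg t B, term (qq D) σ with hMdef
  have hΩVG : 0 ≤ Ω * (VV δ X * G) :=
    mul_nonneg hΩ0 (mul_nonneg hv0 (zero_le_one.trans hG1))
  have hup : ZZ D B' (coef β) ≤ η * M := hm2
  have h4 := (abs_le.1 h2).2
  have hM0 : 0 ≤ M := by linarith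
  refine h1.trans ?_
  have h5 : ∑ n ∈ SI X b, (spec δ θ X a n * WW B' (coef β) (xx D n)) ^ 2 ≤
      Ω * (VV δ X * G) * ((η + s) * M) := by
    have h6 : s * (Ω * VV δ X) ≤ Ω * (VV δ X * G) * s := by
      have h0 : 0 ≤ s * (Ω * VV δ X) := mul_nonneg hs (mul_nonneg hΩ0 hv0)
      calc s * (Ω * VV δ X) = s * (Ω * VV δ X) * 1 := by ring
        _ ≤ s * (Ω * VV δ X) * G := mul_le_mul_of_nonneg_left hG1 h0
        _ = _ := by ring
    have h7 : Ω * (VV δ X * G * ZZ D B' (coef β)) ≤ Ω * (VV δ X * G) * (η * M) := by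
      rw [← mul_assoc]
      exact mul_le_mul_of_nonneg_left hup hΩVG
    have h8 : Ω * (VV δ X * G) * s ≤ Ω * (VV δ X * G) * (s * M) := by
      apply mul_le_mul_of_nonneg_left _ hΩVG
      nlinarith
    have h9 : Ω * (VV δ X * G) * ((η + s) * M) =
      Ω * (VV δ X * G) * (η * M) + Ω * (VV δ X * G) * (s * M) := by
      ring
    rw [h9]
    linarith
  calc 1 / G ^ 2 * ∑ n ∈ SI X b, (spec δ θ X a n * WW B' (coef β) (xx D n)) ^ 2
      ≤ 1 / G ^ 2 * (Ω * (VV δ X * G) * ((η + s) * M)) :=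
        mul_le_mul_of_nonneg_left h5 (by positivity)
    _ = _ := by
        have : G ≠ 0 := by linarith
        field_simp

open Classical in
/-- one class: almost all integers have a prime-free window -/
theorem class_bad {t : ℕ} {u β : Fin t → ℝ} {δ θ s η η' C lam Λ κ : ℝ} {X b J : ℕ}
    (D : Dat t u 1 δ X) (hcf : ∀ a, D.cf a = -1) (hJ : 2 ^ 2 ^ JJ δ X ≤ X) (hHX : HH X < X)
    (hβ0 : ∀ τ, 0 ≤ β τ) (hβ1 : ∑ τ, β τ = 1)
    (hg : ∀ τ, D.g τ = β τ / GG (D.S τ)) (hgg : ∀ τ, 0 < GG (D.S τ)) (hX : 1 ≤ X)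
    (hL : 0 < Real.log X)
    (hθ : θ ≤ 1 / 32) (hs : 0 ≤ s) (hs1 : s ≤ 1) (hη0 : 0 ≤ η) (hv0 : 0 ≤ VV δ X)
    (hlam : 0 < lam) (hJ0 : 0 < J) (hΛ : Λ = J * lam) (hC : 0 ≤ C) (hκ0 : 0 ≤ κ)
    (hcard : ∀ i < J, ((win X b Λ lam i).card : ℝ) ≤
      2 * (lam * Real.log X * (Nat.totient (Wm X) / Wm X)))
    (hη : ∀ i < J, ∀ τ, ∑ a ∈ win X b Λ lam i, qq D τ a ≤ η)
    (h1 : ∀ B ⊆ BB X b ⌊Λ * Real.log X⌋₊,
      (B.card : ℝ) ≤ 4 * (lam * Real.log X * (Nat.totient (Wm X) / Wm X)) →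
      ∀ c : (Fin t → Option ℕ) → ℝ, (∀ σ, |c σ| ≤ 1) →
      |∑ n ∈ SI X b, WW B c (xx D n) ^ 2 - (X : ℝ) / Wm X * ZZ D B c| ≤ s * ((X : ℝ) / Wm X) ∧
      (∀ a ∈ B, |∑ n ∈ SI X b, (spec δ θ X a n * WW (B.erase a) c (xx D n)) ^ 2 -
        (X : ℝ) / Wm X * (VV δ X * GG (S1 δ θ X) * ZZ D (B.erase a) c)| ≤
        s * ((X : ℝ) / Wm X * VV δ X)) ∧
      ∑ n ∈ SI X b, WW B c (xx D n) ^ 4 ≤ C * ((X : ℝ) / Wm X))
    (h2 : ∀ B1 B2 : Finset ℕ, Disjoint B1 B2 → B1 ∪ B2 ⊆ BB X b ⌊Λ * Real.log X⌋₊ →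
      ((B1 ∪ B2).card : ℝ) ≤ 4 * (lam * Real.log X * (Nat.totient (Wm X) / Wm X)) →
      |∑ n ∈ SI X b, (WW B1 (fun _ => 1) (xx D n) * WW B2 (fun _ => 1) (xx D n)) ^ 2 -
        (X : ℝ) / Wm X * (ZZ D B1 (fun _ => 1) * ZZ D B2 (fun _ => 1))| ≤
        s * ((X : ℝ) / Wm X))
    (hκ : 2 * (lam * Real.log X * (Nat.totient (Wm X) / Wm X)) *
      (VV δ X / GG (S1 δ θ X) * (η + s)) ≤ κ)
    (hCol : Col) (hCob : Cob) (hMni : Mni) :
    (((SI X b).filter (fun n => Bad lam J X n)).card : ℝ) ≤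
      (4 * (C + 2 * ((1 + η) ^ t) ^ 2) / J + 4 * (s * (1 + (1 + η) ^ t) ^ 2) + 2 * κ) *
        ((X : ℝ) / Wm X) := by
  set Ω := (X : ℝ) / Wm X with hΩd
  have hΩ : 0 ≤ Ω := Om_nonneg X
  set Z : ℝ := (1 + η) ^ t with hZd
  have hZ1 : 1 ≤ Z := one_le_pow₀ (by linarith)
  set wB : ℕ → Finset ℕ := fun i => win X b Λ lam i with hwB
  have hsub : ∀ i, wB i ⊆ BB X b ⌊Λ * Real.log X⌋₊ := fun i => filter_subset _ _
  have hq0 : 0 ≤ lam * Real.log X * ((Nat.totient (Wm X) : ℝ) / Wm X) := by positivity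
  have hc1 : ∀ σ : Fin t → Option ℕ, |(fun _ => (1 : ℝ)) σ| ≤ 1 := fun σ => by simp
  have hZb : ∀ i < J, 1 ≤ ZZ D (wB i) (fun _ => 1) ∧ ZZ D (wB i) (fun _ => 1) ≤ Z := by
    intro i hi
    rw [ZZ_one]
    obtain ⟨hM1, hM2, -⟩ := hMni t (wB i) β (qq D) η hη0 hβ0 hβ1 (fun τ a => qq_nonneg hv0 τ a)
      (hη i hi)
    exact ⟨hM1, hM2⟩
  have hdis : ∀ i j : ℕ, i ≠ j → Disjoint (wB i) (wB j) := by
    have key : ∀ i j : ℕ, i < j → Disjoint (wB i) (wB j) := by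
      intro i j hij
      rw [Finset.disjoint_left]
      intro a ha hb
      have k1 := (mem_filter.1 ha).2.2
      have k2 := (mem_filter.1 hb).2.1
      have k3 : ((i : ℝ) + 1) ≤ j := by exact_mod_cast hij
      have k4 : ((i : ℝ) + 1) * (lam * Real.log X) ≤ j * (lam * Real.log X) :=
        mul_le_mul_of_nonneg_right k3 (by positivity)
      linarith
    intro i j hij
    rcases lt_or_gt_of_ne hij with h | h
    · exact key i j h
    · exact (key j i h).symm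
  set F : ℕ → ℕ → ℝ := fun i n => WW (wB i) (fun _ => 1) (xx D n) ^ 2 with hF
  set av : ℕ → ℝ := fun i => ZZ D (wB i) (fun _ => 1) with hav
  have hc4 : ∀ i < J, ((wB i).card : ℝ) ≤
      4 * (lam * Real.log X * (Nat.totient (Wm X) / Wm X)) := by
    intro i hi
    have := hcard i hi
    linarith
  have hSc : ((SI X b).card : ℝ) ≤ Ω + s * Ω := by
    have k1 := (h1 ∅ (empty_subset _) (by rw [card_empty, Nat.cast_zero]; linarith)
      (fun _ => 1) hc1).1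
    simp only [WW_empty, ZZ_empty, one_pow, sum_const, nsmul_eq_mul, mul_one] at k1
    have := (abs_le.1 k1).2
    linarith
  have hvar := variance_le (SI X b) J F av Ω s C Z hΩ hs hs1 hZb
    (fun i _ n _ => sq_nonneg _) hSc
    (fun i hi => (h1 (wB i) (hsub i) (hc4 i hi) (fun _ => 1) hc1).1)
    (fun i hi j hj hij => by
      have k1 := h2 (wB i) (wB j) (hdis i j hij) (union_subset (hsub i) (hsub j)) (by
        have e1 : ((wB i ∪ wB j).card : ℝ) ≤ (wB i).card + (wB j).card := by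
          exact_mod_cast card_union_le _ _
        have e2 := hcard i hi
        have e3 := hcard j hj
        linarith)
      have k2 : ∀ n, (WW (wB i) (fun _ => 1) (xx D n) * WW (wB j) (fun _ => 1) (xx D n)) ^ 2 =
          F i n * F j n := fun n => mul_pow _ _ 2
      simp only [k2] at k1
      exact k1)
    (fun i hi => by
      have k1 := (h1 (wB i) (hsub i) (hc4 i hi) (fun _ => 1) hc1).2.2
      refine le_trans (le_of_eq ?_) k1
      refine sum_congr rfl fun n _ => ?_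
      simp only [hF]
      ring) hC hZ1
  set N : ℕ → ℝ := fun n => ∑ i ∈ range J, F i n * (Np (wB i) n : ℝ) with hN
  have hN0 : ∀ n ∈ SI X b, 0 ≤ N n := fun n _ =>
    sum_nonneg fun i _ => mul_nonneg (sq_nonneg _) (Nat.cast_nonneg _)
  have hNs : ∑ n ∈ SI X b, N n ≤ κ * (∑ i ∈ range J, av i) * Ω := by
    rw [sum_comm, mul_sum, sum_mul]
    refine sum_le_sum fun i hi => ?_
    have hi' := mem_range.1 hi
    rw [moment1]
    have hge : ∀ a ∈ wB i, 1 ≤ a := fun a ha => (mem_BB.1 (hsub i ha)).1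
    calc ∑ a ∈ wB i, ∑ n ∈ SP X b a, F i n
        ≤ ∑ a ∈ wB i, Ω * (VV δ X / GG (S1 δ θ X)) * ((η + s) * av i) := by
          refine sum_le_sum fun a ha => ?_
          exact E2w hCol hCob hMni D hcf hJ hβ0 hβ1 hg hgg hX hθ hs hη0 hv0 (wB i) hge (hη i hi')
            (fun c hc a' ha' => (h1 (wB i) (hsub i) (hc4 i hi') c hc).2.1 a' ha') ha
      _ = ((wB i).card : ℝ) * (Ω * (VV δ X / GG (S1 δ θ X)) * ((η + s) * av i)) := by
          rw [sum_const, nsmul_eq_mul]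
      _ = (((wB i).card : ℝ) * (VV δ X / GG (S1 δ θ X) * (η + s))) * (av i * Ω) := by ring
      _ ≤ κ * (av i * Ω) := by
          have hG1 : 1 ≤ GG (S1 δ θ X) := GG1_ge hX hθ
          have k0 : 0 ≤ VV δ X / GG (S1 δ θ X) * (η + s) :=
            mul_nonneg (div_nonneg hv0 (by linarith)) (by linarith)
          have k1 : ((wB i).card : ℝ) * (VV δ X / GG (S1 δ θ X) * (η + s)) ≤ κ :=
            (mul_le_mul_of_nonneg_right (hcard i hi') k0).trans hκ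
          exact mul_le_mul_of_nonneg_right k1
            (mul_nonneg (by have := (hZb i hi').1; linarith) hΩ)
      _ = _ := by ring
  exact exc_le (SI X b) J hJ0 F av N Ω s C Z κ hΩ (fun i hi => (hZb i hi).1) hvar hC hs hN0 hNs
    _ (filter_subset _ _) (by
      intro n hn
      rw [mem_filter] at hn
      obtain ⟨hnS, hnB⟩ := hn
      refine sum_le_sum fun i hi => ?_
      have hi' := mem_range.1 hi
      obtain ⟨a, ha1, ha2, hp⟩ := hnB i hi'
      have hpos : 0 < lam * Real.log X := by positivity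
      have ha0 : 1 ≤ a := by
        have : (0 : ℝ) < a := lt_of_le_of_lt (by positivity) ha1
        exact_mod_cast this
      have haN : a ≤ ⌊Λ * Real.log X⌋₊ := by
        apply Nat.le_floor
        refine ha2.trans ?_
        rw [hΛ, mul_assoc]
        apply mul_le_mul_of_nonneg_right _ hpos.le
        exact_mod_cast hi'
      have haB : a ∈ wB i := mem_filter.2 ⟨prime_BB hHX hnS ha0 haN hp, ha1, ha2⟩
      have hNp : 1 ≤ Np (wB i) n := by
        unfold Np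
        exact card_pos.2 ⟨a, mem_filter.2 ⟨haB, hp⟩⟩
      have hNp' : (1 : ℝ) ≤ Np (wB i) n := by exact_mod_cast hNp
      calc F i n = F i n * 1 := (mul_one _).symm
        _ ≤ F i n * (Np (wB i) n : ℝ) := mul_le_mul_of_nonneg_left hNp' (sq_nonneg _))

end Pool.Agent.T2h81.AS
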