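import Pool.Agent.T2h81.Fin2

/-!
Almost all short intervals contain prime-free windows: the choice of the parameters.
-/

set_option autoImplicit false
set_option maxHeartbeats 4000000
set_option linter.unusedVariables false

open Finset

namespace Pool.Agent.T2h81.AS

open Pool.Agent.H361R2.PP
open Pool.Agent.H410R2.AC (wt GG cfg term WW pos Inj coef)

open Classical in
theorem sum_cls (P : ℕ → Prop) (X : ℕ) (q : ℝ)
    (h : ∀ b < Wm X, (((SI X b).filter (fun n => P n)).card : ℝ) ≤ q * ((X : ℝ) / Wm X)) :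
    (((Ico X (2 * X)).filter (fun n => P n)).card : ℝ) ≤ q * X := by
  have hW := Wm_pos X
  have h1 : ((Ico X (2 * X)).filter (fun n => P n)).card =
      ∑ b ∈ range (Wm X), ((SI X b).filter (fun n => P n)).card := by
    rw [card_eq_sum_card_fiberwise (f := fun n => n % Wm X) (t := range (Wm X))]
    · refine sum_congr rfl fun b _ => ?_
      congr 1
      ext n
      simp only [mem_filter, mem_SI, mem_Ico]
      tauto
    · intro n _
      simp only [coe_range, Set.mem_Iio]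
      exact Nat.mod_lt _ hW
  rw [h1]
  push_cast
  calc ∑ b ∈ range (Wm X), (((SI X b).filter (fun n => P n)).card : ℝ) ≤
      ∑ b ∈ range (Wm X), q * ((X : ℝ) / Wm X) :=
        sum_le_sum fun b hb => h b (mem_range.1 hb)
    _ = q * X := by
        rw [sum_const, card_range, nsmul_eq_mul]
        have : (Wm X : ℝ) ≠ 0 := by exact_mod_cast hW.ne'
        field_simp

open Classical in
/-- almost all integers `n` have a prime-free window of length `lam * log X` among the `J` windows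
which follow `n` -/
theorem bad_rare (lam ε : ℝ) (hlam : 0 < lam) (hε : 0 < ε) :
    ∃ J : ℕ, 0 < J ∧ ∃ X₀ : ℕ, ∀ X : ℕ, X₀ ≤ X →
      (((Ico X (2 * X)).filter (fun n => Bad lam J X n)).card : ℝ) ≤ ε * X := by
  have hTy := Pool.Agent.H708R2.types
  have hGGT := Pool.Agent.H488R2.ggtypes Pool.Agent.H325R2.wtx
  have hGGS := Pool.Agent.H633R2.ggSharp
  have hMer := Pool.Agent.H488R2.mer Pool.Agent.H325R2.wtx
  have hCnt := Pool.Agent.H363R2.PPCnt.cnt
  have hWtx := Pool.Agent.H325R2.wtx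
  obtain ⟨s₁, hs₁⟩ : ∃ s : ℝ, s = min 1 (ε / (208 * (lam + 1))) := ⟨_, rfl⟩
  have hs₁0 : 0 < s₁ := by rw [hs₁]; exact lt_min one_pos (by positivity)
  have hs₁1 : s₁ ≤ 1 := by rw [hs₁]; exact min_le_left _ _
  have hs₁ε : 208 * (lam * s₁) ≤ ε := by
    have h1 : s₁ ≤ ε / (208 * (lam + 1)) := by rw [hs₁]; exact min_le_right _ _
    rw [le_div_iff₀ (by positivity)] at h1
    nlinarith
  obtain ⟨θ, hθ⟩ : ∃ θ : ℝ, θ = 1 / 32 := ⟨_, rfl⟩
  have hθ0 : 0 < θ := by rw [hθ]; norm_num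
  have hθ1 : θ ≤ 1 / 32 := hθ.le
  obtain ⟨CT, hCT1, hCT⟩ := hGGT
  obtain ⟨CM, hCM1, hCM⟩ := hMer
  obtain ⟨η', hη'⟩ : ∃ η' : ℝ, η' = s₁ / (2 * lam * CM) := ⟨_, rfl⟩
  have hCM0 : 0 < CM := by linarith
  have hη'0 : 0 < η' := by rw [hη']; positivity
  obtain ⟨t, u, β, V₀, hV₀, huβ, hβ1, hu, hty⟩ := hTy CT η' (θ / 2) hCT1 hη'0 (by linarith)
  obtain ⟨Z, hZ⟩ : ∃ Z : ℝ, Z = (1 + s₁) ^ t := ⟨_, rfl⟩
  have hZ1 : 1 ≤ Z := by rw [hZ]; exact one_le_pow₀ (by linarith)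
  obtain ⟨s, hs⟩ : ∃ s : ℝ, s = min s₁ (ε / (16 * (1 + Z) ^ 2)) := ⟨_, rfl⟩
  have hs0 : 0 < s := by rw [hs]; exact lt_min hs₁0 (by positivity)
  have hss₁ : s ≤ s₁ := by rw [hs]; exact min_le_left _ _
  have hsε : 4 * (s * (1 + Z) ^ 2) ≤ ε / 4 := by
    have h1 : s ≤ ε / (16 * (1 + Z) ^ 2) := by rw [hs]; exact min_le_right _ _
    rw [le_div_iff₀ (by positivity)] at h1
    linarith
  obtain ⟨δ₁, hδ₁, hsm1⟩ := smW1 t u 1 lam θ s (fun τ => (huβ τ).1) hu hθ0 hθ1 le_rfl hlam hs0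
  obtain ⟨δ₂, hδ₂, hsm2⟩ := smW2 t u lam θ s (fun τ => (huβ τ).1) hu hθ0 hθ1 hlam hs0
  obtain ⟨dβ, hdβ0, hdβ⟩ : ∃ d : ℝ, 0 < d ∧ ∀ τ, d ≤ β τ / η' := by
    refine ⟨1 / (∑ τ, η' / β τ + 1), ?_, fun τ => ?_⟩
    · have : 0 ≤ ∑ τ, η' / β τ := sum_nonneg fun τ _ => (div_pos hη'0 (huβ τ).2).le
      positivity
    · have h1 : η' / β τ ≤ ∑ τ, η' / β τ :=
        single_le_sum (f := fun τ => η' / β τ) (fun τ _ => (div_pos hη'0 (huβ τ).2).le)
          (mem_univ τ)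
      have h2 : 0 < η' / β τ := div_pos hη'0 (huβ τ).2
      calc 1 / (∑ τ, η' / β τ + 1) ≤ 1 / (η' / β τ) :=
            one_div_le_one_div_of_le h2 (by linarith)
        _ = β τ / η' := by rw [one_div_div]
  obtain ⟨δ, hδd⟩ : ∃ δ : ℝ, δ = min (min δ₁ δ₂) (min V₀ (min (1 / 8) dβ)) := ⟨_, rfl⟩
  have hδ0 : 0 < δ := by
    rw [hδd]
    exact lt_min (lt_min hδ₁ hδ₂) (lt_min hV₀ (lt_min (by norm_num) hdβ0))
  have hδ1 : δ ≤ δ₁ := by rw [hδd]; exact (min_le_left _ _).trans (min_le_left _ _)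
  have hδ2 : δ ≤ δ₂ := by rw [hδd]; exact (min_le_left _ _).trans (min_le_right _ _)
  have hδV : δ ≤ V₀ := by rw [hδd]; exact (min_le_right _ _).trans (min_le_left _ _)
  have hδ3 : δ ≤ 1 / 8 := by
    rw [hδd]; exact (min_le_right _ _).trans ((min_le_right _ _).trans (min_le_left _ _))
  have hδ4 : δ ≤ dβ := by
    rw [hδd]; exact (min_le_right _ _).trans ((min_le_right _ _).trans (min_le_right _ _))
  obtain ⟨C, hC, hSM1⟩ := hsm1 δ hδ0 hδ1
  obtain ⟨J, hJ⟩ := exists_nat_gt (16 * (C + 2 * Z ^ 2) / ε)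
  have hJr : (0 : ℝ) < J := lt_trans (by positivity) hJ
  have hJ0 : 0 < J := by exact_mod_cast hJr
  have hJε : 4 * (C + 2 * Z ^ 2) / J ≤ ε / 4 := by
    rw [div_lt_iff₀ hε] at hJ
    rw [div_le_iff₀ hJr]
    linarith
  obtain ⟨Λ, hΛ⟩ : ∃ Λ : ℝ, Λ = J * lam := ⟨_, rfl⟩
  have hΛ0 : 0 < Λ := by rw [hΛ]; positivity
  obtain ⟨X1, hX1'⟩ := hSM1 Λ hΛ0
  obtain ⟨X2, hX2'⟩ := hsm2 δ hδ0 hδ2 Λ hΛ0
  obtain ⟨X3, hGX⟩ := hCT δ hδ0 hδ3
  obtain ⟨X4, hMX⟩ := hCM δ hδ0 (by linarith)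
  obtain ⟨X5, hCX⟩ := hCnt 1 lam Λ one_pos hlam hΛ0
  obtain ⟨X7, hWX⟩ := hWtx.2 δ hδ0 (by linarith)
  obtain ⟨X8, hFX⟩ := log_floor (a := 1 / 4 - 2 * θ) (θ := θ) (by rw [hθ]; norm_num) hθ0
  refine ⟨J, hJ0, X1 + X2 + X3 + X4 + X5 + X7 + X8 + 2, fun X hX => ?_⟩
  have hXtwo : 2 ≤ X := by omega
  have hXone : 1 ≤ X := by omega
  have hL : 0 < Real.log X := Real.log_pos (by exact_mod_cast hXtwo)
  obtain ⟨hw1, -, hw3⟩ := hWX X (by omega)
  have hJJ : 2 ^ 2 ^ JJ δ X ≤ X := by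
    have h1 : (X : ℝ) ^ δ ≤ (X : ℝ) ^ (1 : ℝ) :=
      Real.rpow_le_rpow_of_exponent_le (by exact_mod_cast hXone) (by linarith)
    rw [Real.rpow_one] at h1
    exact_mod_cast hw1.trans h1
  have hHX : HH X < X := lt_of_lt_of_le hw3 hJJ
  obtain ⟨hV0, hM1, hM2⟩ := hMX X (by omega)
  obtain ⟨hF1, hF2⟩ := hFX X (by omega)
  have hVG := VG_le hGGS hθ0 hθ1 hXone hM2 hV0 hF1 hF2
  apply sum_cls
  intro b hb
  -- families
  obtain ⟨S, hS1, hS2, hS3, hS4⟩ := fam_of (X := X) (T := θ / 2) hδ0 hL (by linarith)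
    (hty δ · · · hδ0 hδV) (hGX X (by omega))
  have hG0 : ∀ τ, 0 < GG (S τ) := fun τ =>
    lt_of_lt_of_le (by have := (huβ τ).2; positivity) (hS4 τ)
  let D : Dat t u 1 δ X :=
    { S := S
      g := fun τ => β τ / GG (S τ)
      cf := fun _ => -1
      hS := hS1
      h0 := hS2
      hd := hS3
      hg := by
        intro τ
        have h1 := (huβ τ).2
        refine ⟨(div_pos h1 (hG0 τ)).le, ?_⟩
        rw [div_le_one (hG0 τ)]
        refine le_trans ?_ (hS4 τ)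
        rw [le_div_iff₀ (by positivity)]
        have h2 := hδ4.trans (hdβ τ)
        rw [le_div_iff₀ hη'0] at h2
        nlinarith
      hc := fun _ => by simp }
  have hqq : ∀ τ a, qq D τ a ≤ (η' * δ) * VV δ X := by
    intro τ a
    have h1 : qq D τ a = (β τ ^ 2 / GG (S τ)) * VV δ X := by
      change (-1 : ℝ) ^ 2 * ((β τ / GG (S τ)) ^ 2 * (VV δ X * GG (S τ))) = _
      have := (hG0 τ).ne'
      field_simp
    rw [h1]
    have h2 : β τ ^ 2 / GG (S τ) ≤ η' * δ := by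
      rw [div_le_iff₀ (hG0 τ)]
      have := hS4 τ
      rw [div_le_iff₀ (by positivity)] at this
      linarith
    exact mul_le_mul_of_nonneg_right h2 hV0.le
  have hwc : ∀ i < J, ((win X b Λ lam i).card : ℝ) ≤
      2 * (lam * Real.log X * (Nat.totient (Wm X) / Wm X)) := by
    intro i hi
    have h1 := hCX X (by omega) b ((i : ℝ) * (lam * Real.log X))
      (((i : ℝ) + 1) * (lam * Real.log X)) (by positivity) (by linarith) (by
        rw [hΛ, mul_assoc]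
        apply mul_le_mul_of_nonneg_right _ (by positivity)
        exact_mod_cast hi)
    have h2 : ((i : ℝ) + 1) * (lam * Real.log X) - (i : ℝ) * (lam * Real.log X) =
        lam * Real.log X := by ring
    rw [h2] at h1
    have h3 := (abs_le.1 h1).2
    unfold win
    linarith
  have hη : ∀ i < J, ∀ τ, ∑ a ∈ win X b Λ lam i, qq D τ a ≤ s₁ := by
    intro i hi τ
    calc ∑ a ∈ win X b Λ lam i, qq D τ a ≤ ∑ a ∈ win X b Λ lam i, (η' * δ) * VV δ X :=
          sum_le_sum fun a _ => hqq τ a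
      _ = ((win X b Λ lam i).card : ℝ) * ((η' * δ) * VV δ X) := by
          rw [sum_const, nsmul_eq_mul]
      _ ≤ 2 * (lam * Real.log X * (Nat.totient (Wm X) / Wm X)) * ((η' * δ) * VV δ X) :=
          mul_le_mul_of_nonneg_right (hwc i hi) (by positivity)
      _ = 2 * lam * η' *
            (VV δ X * ((Nat.totient (Wm X) : ℝ) / Wm X) * (δ * Real.log X)) := by ring
      _ ≤ 2 * lam * η' * CM := mul_le_mul_of_nonneg_left hM1 (by positivity)
      _ = s₁ := by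
          rw [hη']
          field_simp
  have hmain := class_bad (β := β) (θ := θ) (s := s) (η := s₁) (η' := η') (C := C) (lam := lam)
    (Λ := Λ) (κ := 26 * (lam * s₁)) (b := b) (J := J)
    D (fun _ => rfl) hJJ hHX (fun τ => (huβ τ).2.le) hβ1 (fun _ => rfl) hG0
    hXone hL hθ1 hs0.le (hss₁.trans hs₁1) hs₁0.le hV0.le hlam hJ0 hΛ hC.le (by positivity) hwc hη
    (fun B hB hBc c hc => hX1' X (by omega) b hb D B hB hBc c hc)
    (fun B1 B2 hd hB hBc => hX2' X (by omega) b hb D (fun _ => rfl) B1 B2 hd hB hBc)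
    (by
      have hr : VV δ X / GG (S1 δ θ X) * (((Nat.totient (Wm X) : ℝ) / Wm X) * Real.log X) ≤
          32 / 5 := by
        have h5 : (1 / 4 - 3 * θ : ℝ) = 5 / 32 := by rw [hθ]; norm_num
        rw [h5] at hVG
        have h6 : VV δ X / GG (S1 δ θ X) * (((Nat.totient (Wm X) : ℝ) / Wm X) * Real.log X) *
            (5 / 32) ≤ 1 := by
          calc VV δ X / GG (S1 δ θ X) * (((Nat.totient (Wm X) : ℝ) / Wm X) * Real.log X) *
              (5 / 32) = VV δ X / GG (S1 δ θ X) * (((Nat.totient (Wm X) : ℝ) / Wm X) *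
                (5 / 32 * Real.log X)) := by ring
            _ ≤ 1 := hVG
        linarith
      calc 2 * (lam * Real.log X * (Nat.totient (Wm X) / Wm X)) *
            (VV δ X / GG (S1 δ θ X) * (s₁ + s)) = 2 * lam * (s₁ + s) *
            (VV δ X / GG (S1 δ θ X) * (((Nat.totient (Wm X) : ℝ) / Wm X) * Real.log X)) := by ring
        _ ≤ 2 * lam * (s₁ + s) * (32 / 5) := mul_le_mul_of_nonneg_left hr (by positivity)
        _ ≤ 2 * lam * (s₁ + s₁) * (32 / 5) := by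
            apply mul_le_mul_of_nonneg_right _ (by norm_num)
            exact mul_le_mul_of_nonneg_left (by linarith) (by positivity)
        _ ≤ 26 * (lam * s₁) := by
            have : 0 ≤ lam * s₁ := by positivity
            linarith)
    Pool.Agent.H872R2.PPCol.col Pool.Agent.H872R2.PPCol.cob Pool.Agent.H433R2.PPMni.mni
  refine hmain.trans ?_
  apply mul_le_mul_of_nonneg_right _ (Om_nonneg X)
  rw [← hZ]
  linarith

end Pool.Agent.T2h81.AS
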