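import Pool.Agent.T2h81.Fin3

/-!
Upper bound for the number of pairs of primes at distance at most `Λ log X`.
-/

set_option autoImplicit false
set_option maxHeartbeats 4000000
set_option linter.unusedVariables false

open Finset

namespace Pool.Agent.T2h81.AS

open Pool.Agent.H361R2.PP
open Pool.Agent.H410R2.AC (wt GG cfg term WW pos Inj coef)

/-- the number of pairs of primes `n + 1 < n + a`, `X ≤ n < 2 X`, `a ≤ N` -/
noncomputable def PS (X N : ℕ) : ℕ :=
  ∑ n ∈ (Ico X (2 * X)).filter (fun n => (n + 1).Prime),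
    ((Icc 2 N).filter (fun a => (n + a).Prime)).card

theorem pairs_class {δ Λ : ℝ} {X b : ℕ} (hX : 1 ≤ X) (hHX : HH X < X) (hL : 0 < Real.log X)
    (hΛ : 0 < Λ) (hJ : 2 ^ 2 ^ JJ δ X ≤ X) (hV0 : 0 < VV δ X)
    (hsm : ∀ a ∈ BB X b ⌊Λ * Real.log X⌋₊, ∀ a' ∈ BB X b ⌊Λ * Real.log X⌋₊, a ≠ a' →
      |∑ n ∈ SP X b a, (spec δ (1 / 32) X a' n) ^ 2 -
        Pr X / Nat.totient (Wm X) * (VV δ X * GG (S1 δ (1 / 32) X))| ≤
        1 * (Pr X / Nat.totient (Wm X) * VV δ X))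
    (hcB : ((BB X b ⌊Λ * Real.log X⌋₊).card : ℝ) ≤
      2 * (Λ * Real.log X * (Nat.totient (Wm X) / Wm X)))
    (hVG : VV δ X / GG (S1 δ (1 / 32) X) * (((Nat.totient (Wm X) : ℝ) / Wm X) *
      ((1 / 4 - 3 * (1 / 32)) * Real.log X)) ≤ 1) (hb : (b + 1).Coprime (Wm X))
    (hΛ1 : 1 ≤ ⌊Λ * Real.log X⌋₊) :
    (∑ n ∈ SP X b 1, (((Icc 2 ⌊Λ * Real.log X⌋₊).filter (fun a => (n + a).Prime)).card : ℝ)) ≤
      26 * Λ * (Pr X / Nat.totient (Wm X)) := by
  set B := BB X b ⌊Λ * Real.log X⌋₊ with hB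
  set Ω' := Pr X / Nat.totient (Wm X) with hΩ'
  have hΩ'0 : 0 ≤ Ω' := Om'_nonneg X
  set G := GG (S1 δ (1 / 32) X) with hG
  have hG1 : 1 ≤ G := GG1_ge hX le_rfl
  set v := VV δ X / G with hv
  have hv0 : 0 ≤ v := div_nonneg hV0.le (by linarith)
  set f := (Nat.totient (Wm X) : ℝ) / Wm X with hf
  set L := Real.log X with hLd
  have h1B : 1 ∈ B := mem_BB.2 ⟨le_rfl, hΛ1, hb⟩
  have hpair : ∀ a' ∈ B, a' ≠ 1 →
      (((SP X b 1).filter (fun n => (n + a').Prime)).card : ℝ) ≤ 2 * (Ω' * v) := by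
    intro a' ha' hne
    have ha1 : 1 ≤ a' := (mem_BB.1 ha').1
    have h1 := (abs_le.1 (hsm 1 h1B a' ha' (Ne.symm hne))).2
    have h2 : (((SP X b 1).filter (fun n => (n + a').Prime)).card : ℝ) * G ^ 2 ≤
        ∑ n ∈ SP X b 1, (spec δ (1 / 32) X a' n) ^ 2 := by
      calc (((SP X b 1).filter (fun n => (n + a').Prime)).card : ℝ) * G ^ 2 =
          ∑ n ∈ (SP X b 1).filter (fun n => (n + a').Prime), (spec δ (1 / 32) X a' n) ^ 2 := by
            rw [← nsmul_eq_mul, ← sum_const]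
            refine sum_congr rfl fun n hn => ?_
            rw [mem_filter, mem_SP] at hn
            unfold spec
            rw [rg_prime (P1_lt hJ hn.1.1 ha1) hn.2, FS_prime (P2_lt hn.1.1 ha1) S1_sub hn.2,
              one_mul]
        _ ≤ _ := sum_le_sum_of_subset_of_nonneg (filter_subset _ _) fun n _ _ => sq_nonneg _
    have h3 : (((SP X b 1).filter (fun n => (n + a').Prime)).card : ℝ) * G ^ 2 ≤
        Ω' * VV δ X * (G + 1) := by linarith
    have h4 : Ω' * VV δ X * (G + 1) ≤ Ω' * VV δ X * (2 * G) := by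
      apply mul_le_mul_of_nonneg_left (by linarith)
      exact mul_nonneg hΩ'0 hV0.le
    have h5 : (((SP X b 1).filter (fun n => (n + a').Prime)).card : ℝ) * G ^ 2 ≤
        2 * (Ω' * v) * G ^ 2 := by
      refine (h3.trans h4).trans (le_of_eq ?_)
      rw [hv]
      have : G ≠ 0 := by linarith
      field_simp
    exact le_of_mul_le_mul_right h5 (by positivity)
  have hT0 : 0 ≤ 2 * (Ω' * v) := mul_nonneg (by norm_num) (mul_nonneg hΩ'0 hv0)
  have hf0 : 0 ≤ f := by rw [hf]; positivity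
  have hswap : (∑ n ∈ SP X b 1, (((Icc 2 ⌊Λ * L⌋₊).filter (fun a => (n + a).Prime)).card : ℝ)) ≤
      ∑ a' ∈ B.erase 1, (((SP X b 1).filter (fun n => (n + a').Prime)).card : ℝ) := by
    have h1 : ∀ n ∈ SP X b 1, (((Icc 2 ⌊Λ * L⌋₊).filter (fun a => (n + a).Prime)).card : ℝ) ≤
        ∑ a' ∈ B.erase 1, if (n + a').Prime then (1 : ℝ) else 0 := by
      intro n hn
      rw [← sum_filter, sum_const, nsmul_eq_mul, mul_one]
      have : (Icc 2 ⌊Λ * L⌋₊).filter (fun a => (n + a).Prime) ⊆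
          (B.erase 1).filter (fun a => (n + a).Prime) := by
        intro a ha
        rw [mem_filter, mem_Icc] at ha
        rw [mem_filter, mem_erase]
        refine ⟨⟨by omega, ?_⟩, ha.2⟩
        exact prime_BB hHX (SP_sub hn) (by omega) ha.1.2 ha.2
      exact_mod_cast card_le_card this
    refine (sum_le_sum h1).trans (le_of_eq ?_)
    rw [sum_comm]
    refine sum_congr rfl fun a _ => ?_
    rw [← sum_filter, sum_const, nsmul_eq_mul, mul_one]
  have h9 : v * (f * L) ≤ 32 / 5 := by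
    have h10 : v * (f * L) * (5 / 32) ≤ 1 := by
      calc v * (f * L) * (5 / 32) = v * (f * ((1 / 4 - 3 * (1 / 32)) * L)) := by ring
        _ ≤ 1 := hVG
    linarith
  calc (∑ n ∈ SP X b 1, (((Icc 2 ⌊Λ * L⌋₊).filter (fun a => (n + a).Prime)).card : ℝ)) ≤
      ∑ a' ∈ B.erase 1, (((SP X b 1).filter (fun n => (n + a').Prime)).card : ℝ) := hswap
    _ ≤ ∑ a' ∈ B.erase 1, 2 * (Ω' * v) := by
        refine sum_le_sum fun a' ha' => ?_
        rw [mem_erase] at ha'
        exact hpair a' ha'.2 ha'.1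
    _ = ((B.erase 1).card : ℝ) * (2 * (Ω' * v)) := by rw [sum_const, nsmul_eq_mul]
    _ ≤ (2 * (Λ * L * f)) * (2 * (Ω' * v)) := by
        apply mul_le_mul_of_nonneg_right _ hT0
        refine le_trans ?_ hcB
        exact_mod_cast card_le_card (erase_subset _ _)
    _ = 4 * Λ * Ω' * (v * (f * L)) := by ring
    _ ≤ 4 * Λ * Ω' * (32 / 5) := mul_le_mul_of_nonneg_left h9 (by positivity)
    _ ≤ 26 * Λ * Ω' := by
        have : 0 ≤ Λ * Ω' := by positivity
        linarith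

theorem pairs_le (Λ : ℝ) (hΛ : 0 < Λ) : ∃ X₀ : ℕ, ∀ X : ℕ, X₀ ≤ X →
    (PS X ⌊Λ * Real.log X⌋₊ : ℝ) ≤ 26 * Λ * Pr X := by
  have hGGS := Pool.Agent.H633R2.ggSharp
  have hMer := Pool.Agent.H488R2.mer Pool.Agent.H325R2.wtx
  have hCnt := Pool.Agent.H363R2.PPCnt.cnt
  have hWtx := Pool.Agent.H325R2.wtx
  obtain ⟨δ₀, hδ₀, hsm⟩ := sm 0 (fun i => i.elim0) 1 Λ (1 / 32) 1 (fun i => i.elim0)
    (by rw [univ_eq_empty, sum_empty]; norm_num) (by norm_num) le_rfl le_rfl hΛ one_pos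
  obtain ⟨CM, hCM1, hCM⟩ := hMer
  obtain ⟨δ, hδd⟩ : ∃ δ : ℝ, δ = min δ₀ (1 / 8) := ⟨_, rfl⟩
  have hδ0 : 0 < δ := by rw [hδd]; exact lt_min hδ₀ (by norm_num)
  have hδ1 : δ ≤ δ₀ := by rw [hδd]; exact min_le_left _ _
  have hδ3 : δ ≤ 1 / 8 := by rw [hδd]; exact min_le_right _ _
  obtain ⟨C, X1, hC, hSMX⟩ := hsm δ hδ0 hδ1
  obtain ⟨X3, hMX⟩ := hCM δ hδ0 (by linarith)
  obtain ⟨X5, hCX⟩ := hCnt 1 Λ Λ one_pos hΛ hΛ
  obtain ⟨X7, hWX⟩ := hWtx.2 δ hδ0 (by linarith)
  obtain ⟨X8, hFX⟩ := log_floor (a := 1 / 4 - 2 * (1 / 32)) (θ := 1 / 32) (by norm_num)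
    (by norm_num)
  obtain ⟨X9, hX9⟩ := exists_nat_ge (Real.exp (1 / Λ))
  refine ⟨X1 + X3 + X5 + X7 + X8 + X9 + 2, fun X hX => ?_⟩
  have hXtwo : 2 ≤ X := by omega
  have hX1 : 1 ≤ X := by omega
  have hL : 0 < Real.log X := Real.log_pos (by exact_mod_cast hXtwo)
  have hN1 : 1 ≤ ⌊Λ * Real.log X⌋₊ := by
    apply Nat.le_floor
    have h1 : Real.exp (1 / Λ) ≤ X := hX9.trans (by exact_mod_cast (by omega : X9 ≤ X))
    have h2 : 1 / Λ ≤ Real.log X := by
      rw [Real.le_log_iff_exp_le (by positivity)]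
      exact h1
    rw [div_le_iff₀ hΛ] at h2
    push_cast
    linarith
  obtain ⟨hw1, -, hw3⟩ := hWX X (by omega)
  have hJ : 2 ^ 2 ^ JJ δ X ≤ X := by
    have h1 : (X : ℝ) ^ δ ≤ (X : ℝ) ^ (1 : ℝ) :=
      Real.rpow_le_rpow_of_exponent_le (by exact_mod_cast hX1) (by linarith)
    rw [Real.rpow_one] at h1
    exact_mod_cast hw1.trans h1
  have hHX : HH X < X := lt_of_lt_of_le hw3 hJ
  obtain ⟨hV0, hM1, hM2⟩ := hMX X (by omega)
  obtain ⟨hF1, hF2⟩ := hFX X (by omega)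
  have hW := Wm_pos X
  set N := ⌊Λ * Real.log X⌋₊ with hN
  have h1 : (PS X N : ℝ) = ∑ b ∈ range (Wm X),
      ∑ n ∈ SP X b 1, (((Icc 2 N).filter (fun a => (n + a).Prime)).card : ℝ) := by
    unfold PS
    push_cast
    rw [← sum_fiberwise_of_maps_to (s := (Ico X (2 * X)).filter (fun n => (n + 1).Prime))
      (t := range (Wm X)) (g := fun n => n % Wm X)
      (fun n _ => mem_range.2 (Nat.mod_lt _ hW))]
    refine sum_congr rfl fun b _ => ?_
    refine sum_congr ?_ fun _ _ => rfl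
    ext n
    simp only [mem_filter, mem_SP, mem_Ico]
    tauto
  rw [h1]
  have h2 : ∀ b ∈ range (Wm X),
      ∑ n ∈ SP X b 1, (((Icc 2 N).filter (fun a => (n + a).Prime)).card : ℝ) ≤
      if (b + 1).Coprime (Wm X) then 26 * Λ * (Pr X / Nat.totient (Wm X)) else 0 := by
    intro b hb
    have hb' := mem_range.1 hb
    split_ifs with hcop
    · refine pairs_class (δ := δ) hX1 hHX hL hΛ hJ hV0 ?_ ?_
        (VG_le hGGS (by norm_num) le_rfl hX1 hM2 hV0 hF1 hF2) hcop hN1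
      · intro a ha a' ha' hne
        have h2 := (hSMX X (by omega) b hb' (D0 δ X) ∅ (empty_subset _) (fun _ => 1)
          (fun σ => by rw [abs_one])).2.2.2.1 a (by rw [sdiff_empty]; exact ha) a'
          (by rw [sdiff_empty]; exact ha') hne
        simp only [WW_zero, ZZ_zero, mul_one] at h2
        exact h2
      · have h2 := hCX X (by omega) b 0 (Λ * Real.log X) le_rfl (by rw [zero_add]) le_rfl
        rw [sub_zero] at h2
        have h3 : (BB X b ⌊Λ * Real.log X⌋₊).filter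
            (fun a : ℕ => (0 : ℝ) < a ∧ (a : ℝ) ≤ Λ * Real.log X) =
            BB X b ⌊Λ * Real.log X⌋₊ := by
          apply filter_true_of_mem
          intro a ha
          rw [mem_BB] at ha
          refine ⟨by exact_mod_cast ha.1, ?_⟩
          exact (Nat.le_floor_iff (by positivity)).1 ha.2.1
        rw [h3] at h2
        linarith [(abs_le.1 h2).2]
    · rw [sum_eq_zero]
      intro n hn
      exfalso
      apply hcop
      have h3 := prime_BB (N := 1) hHX (SP_sub hn) le_rfl le_rfl (mem_SP.1 hn).2.2.2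
      exact (mem_BB.1 h3).2.2
  have hφ : ((range (Wm X)).filter (fun b => (b + 1).Coprime (Wm X))).card =
      Nat.totient (Wm X) := by
    rw [← Nat.filter_coprime_Ico_eq_totient (Wm X) 1]
    apply Finset.card_bij (fun b _ => b + 1)
    · intro b hb
      rw [Finset.mem_filter, Finset.mem_range] at hb
      rw [Finset.mem_filter, Finset.mem_Ico]
      exact ⟨⟨by omega, by omega⟩, Nat.coprime_comm.1 hb.2⟩
    · intro b _ b' _ h
      omega
    · intro n hn
      rw [Finset.mem_filter, Finset.mem_Ico] at hn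
      refine ⟨n - 1, ?_, by omega⟩
      rw [Finset.mem_filter, Finset.mem_range]
      refine ⟨by omega, ?_⟩
      have : n - 1 + 1 = n := by omega
      rw [this]
      exact Nat.coprime_comm.1 hn.2
  refine (sum_le_sum h2).trans ?_
  rw [← sum_filter, sum_const, hφ, nsmul_eq_mul]
  have hφ0 : (0 : ℝ) < Nat.totient (Wm X) := by exact_mod_cast Nat.totient_pos.2 hW
  apply le_of_eq
  field_simp

end Pool.Agent.T2h81.AS
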