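import Pool.Agent.T2h81.Idx1

/-!
Almost all primes have a large gap among the next `J` gaps.
-/

set_option autoImplicit false
set_option maxHeartbeats 4000000
set_option linter.unusedVariables false

open Finset

namespace Pool.Agent.T2h81.AS

open Pool.Agent.H361R2.PP

/-- `P k` is the `k`-th prime; among the `J` gaps which follow it there is one of length at least
`lam` times the logarithm of its left end -/
def Soon (lam : ℝ) (J k : ℕ) : Prop :=
  ∃ i < J, lam * Real.log (P (k + i)) ≤ (P (k + i + 1) : ℝ) - P (k + i)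

/-- the indices of the primes in `[X, 2 X)` -/
noncomputable def idx (X : ℕ) : Finset ℕ :=
  (range (2 * X)).filter (fun k => X ≤ P k ∧ P k < 2 * X)

theorem P_prime (k : ℕ) : (P k).Prime := Nat.prime_nth_prime k

theorem P_mono : StrictMono P := Nat.nth_strictMono Nat.infinite_setOfPred_prime

theorem le_P (k : ℕ) : k ≤ P k := P_mono.le_apply

theorem mem_idx {X k : ℕ} : k ∈ idx X ↔ X ≤ P k ∧ P k < 2 * X := by
  unfold idx
  rw [mem_filter, mem_range]
  constructor
  · exact fun h => h.2
  · intro h
    exact ⟨lt_of_le_of_lt (le_P k) h.2, h⟩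

theorem card_idx (X : ℕ) : ((idx X).card : ℝ) = Pr X := by
  unfold Pr
  congr 1
  apply card_bij (fun k _ => P k)
  · intro k hk
    rw [mem_idx] at hk
    rw [mem_filter, mem_Ico]
    exact ⟨hk, P_prime k⟩
  · intro k _ k' _ h
    exact P_mono.injective h
  · intro p hp
    rw [mem_filter, mem_Ico] at hp
    refine ⟨Nat.count Nat.Prime p, ?_, ?_⟩
    · rw [mem_idx]
      have : P (Nat.count Nat.Prime p) = p := Nat.nth_count hp.2
      rw [this]
      exact hp.1
    · exact Nat.nth_count hp.2

/-- between `y` and `y + G` there is a prime if the gaps are less than `G` -/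
theorem prime_between {k m : ℕ} {y G : ℝ} (h0 : (P k : ℝ) ≤ y) (h1 : y < P (k + m))
    (hg : ∀ i < m, (P (k + i) : ℝ) ≤ y → (P (k + i + 1) : ℝ) - P (k + i) < G) :
    ∃ q : ℕ, q.Prime ∧ y < q ∧ (q : ℝ) ≤ y + G := by
  classical
  have hex : ∃ l : ℕ, y < P (k + l) := ⟨m, h1⟩
  obtain ⟨l, hl⟩ : ∃ l, l = Nat.find hex := ⟨_, rfl⟩
  have hl1 : y < P (k + l) := by rw [hl]; exact Nat.find_spec hex
  have hlm : l ≤ m := by rw [hl]; exact Nat.find_min' hex h1
  have hl0 : l ≠ 0 := by
    rintro rfl
    rw [add_zero] at hl1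
    linarith
  obtain ⟨l', rfl⟩ := Nat.exists_eq_succ_of_ne_zero hl0
  have hl2 : (P (k + l') : ℝ) ≤ y := by
    have := Nat.find_min hex (m := l') (by rw [← hl]; exact Nat.lt_succ_self _)
    exact not_lt.1 this
  have h3 := hg l' (by omega) hl2
  refine ⟨P (k + l' + 1), P_prime _, ?_, ?_⟩
  · have : k + l' + 1 = k + Nat.succ l' := by omega
    rw [this]
    exact hl1
  · linarith

open Classical in
/-- a set of indices, all primes of which are left ends of intervals of exceptional integers -/
theorem case1 (X N : ℕ) (hN : 0 < N) (K E : Finset ℕ)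
    (hK : ∀ k ∈ K, X + 1 ≤ P k ∧ P k + N ≤ 2 * X)
    (hE : ∀ k ∈ K, ∀ n, P k ≤ n → n < P k + N → n ∈ E) :
    ((K.card : ℝ) * N) ^ 2 ≤ E.card * ((K.card + 2 * PS X (N + 1)) * N) := by
  set r : ℕ → ℕ := fun n => (K.filter (fun k => n ∈ Ico (P k) (P k + N))).card with hr
  have h1 : ∑ n ∈ E, r n = K.card * N := by
    simp only [hr, card_filter]
    rw [sum_comm]
    have : ∀ k ∈ K, ∑ n ∈ E, (if n ∈ Ico (P k) (P k + N) then 1 else 0) = N := by
      intro k hk
      rw [← card_filter]
      have h2 : E.filter (fun n => n ∈ Ico (P k) (P k + N)) = Ico (P k) (P k + N) := by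
        ext n
        rw [mem_filter, mem_Ico]
        exact ⟨fun h => h.2, fun h => ⟨hE k hk n h.1 h.2, h⟩⟩
      rw [h2, Nat.card_Ico]
      omega
    rw [sum_congr rfl this, sum_const, smul_eq_mul]
  have h2 : (∑ n ∈ E, (r n : ℝ)) ^ 2 ≤ E.card * ∑ n ∈ E, (r n : ℝ) ^ 2 := sq_sum_le_card_mul_sum_sq
  have h3 : ∑ n ∈ E, (r n : ℝ) ^ 2 ≤ (K.card + 2 * PS X (N + 1)) * N := by
    have e1 : ∀ n ∈ E, (r n : ℝ) ^ 2 = ∑ k ∈ K, ∑ k' ∈ K,
        (if n ∈ Ico (P k) (P k + N) ∧ n ∈ Ico (P k') (P k' + N) then (1 : ℝ) else 0) := by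
      intro n _
      have e2 : (r n : ℝ) = ∑ k ∈ K, (if n ∈ Ico (P k) (P k + N) then (1 : ℝ) else 0) := by
        simp only [hr]
        rw [← sum_filter, sum_const, nsmul_eq_mul, mul_one]
      rw [e2, sq, sum_mul_sum]
      refine sum_congr rfl fun k _ => sum_congr rfl fun k' _ => ?_
      by_cases c1 : n ∈ Ico (P k) (P k + N) <;> by_cases c2 : n ∈ Ico (P k') (P k' + N) <;>
        simp [c1, c2]
    rw [sum_congr rfl e1, sum_comm]
    have e3 : ∀ k ∈ K, ∑ n ∈ E, ∑ k' ∈ K,
        (if n ∈ Ico (P k) (P k + N) ∧ n ∈ Ico (P k') (P k' + N) then (1 : ℝ) else 0) ≤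
        ∑ k' ∈ K, (if P k < P k' + N ∧ P k' < P k + N then (N : ℝ) else 0) := by
      intro k hk
      rw [sum_comm]
      refine sum_le_sum fun k' hk' => ?_
      rw [← sum_filter, sum_const, nsmul_eq_mul, mul_one]
      split_ifs with hc
      · have : (E.filter (fun n => n ∈ Ico (P k) (P k + N) ∧ n ∈ Ico (P k') (P k' + N))) ⊆
            Ico (P k) (P k + N) := fun n hn => (mem_filter.1 hn).2.1
        have h4 := card_le_card this
        rw [Nat.card_Ico] at h4
        exact_mod_cast (by omega : (E.filter (fun n => n ∈ Ico (P k) (P k + N) ∧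
          n ∈ Ico (P k') (P k' + N))).card ≤ N)
      · rw [filter_false_of_mem]
        · simp
        · rintro n _ ⟨c1, c2⟩
          rw [mem_Ico] at c1 c2
          exact hc ⟨by omega, by omega⟩
    refine (sum_le_sum e3).trans ?_
    -- split according to the order
    have e4 : ∀ k ∈ K, ∀ k' ∈ K, (if P k < P k' + N ∧ P k' < P k + N then (N : ℝ) else 0) ≤
        (if k = k' then (N : ℝ) else 0) + (if P k < P k' ∧ P k' < P k + N then (N : ℝ) else 0) +
          (if P k' < P k ∧ P k < P k' + N then (N : ℝ) else 0) := by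
      intro k _ k' _
      have hN0 : (0 : ℝ) ≤ N := Nat.cast_nonneg N
      by_cases c : P k < P k' + N ∧ P k' < P k + N
      · rw [if_pos c]
        rcases lt_trichotomy (P k) (P k') with h | h | h
        · rw [if_pos (show P k < P k' ∧ P k' < P k + N from ⟨h, c.2⟩)]
          have g1 : (0 : ℝ) ≤ (if k = k' then (N : ℝ) else 0) := by split_ifs <;> simp
          have g2 : (0 : ℝ) ≤ (if P k' < P k ∧ P k < P k' + N then (N : ℝ) else 0) := by
            split_ifs <;> simp
          linarith
        · rw [if_pos (P_mono.injective h)]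
          have g1 : (0 : ℝ) ≤ (if P k < P k' ∧ P k' < P k + N then (N : ℝ) else 0) := by
            split_ifs <;> simp
          have g2 : (0 : ℝ) ≤ (if P k' < P k ∧ P k < P k' + N then (N : ℝ) else 0) := by
            split_ifs <;> simp
          linarith
        · rw [if_pos (show P k' < P k ∧ P k < P k' + N from ⟨h, c.1⟩)]
          have g1 : (0 : ℝ) ≤ (if k = k' then (N : ℝ) else 0) := by split_ifs <;> simp
          have g2 : (0 : ℝ) ≤ (if P k < P k' ∧ P k' < P k + N then (N : ℝ) else 0) := by
            split_ifs <;> simp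
          linarith
      · rw [if_neg c]
        have g1 : (0 : ℝ) ≤ (if k = k' then (N : ℝ) else 0) := by split_ifs <;> simp
        have g2 : (0 : ℝ) ≤ (if P k < P k' ∧ P k' < P k + N then (N : ℝ) else 0) := by
          split_ifs <;> simp
        have g3 : (0 : ℝ) ≤ (if P k' < P k ∧ P k < P k' + N then (N : ℝ) else 0) := by
          split_ifs <;> simp
        linarith
    have hpairs : ∑ k ∈ K, ∑ k' ∈ K, (if P k < P k' ∧ P k' < P k + N then (N : ℝ) else 0) ≤
        PS X (N + 1) * N := by
      have g1 : ∀ k ∈ K, ∑ k' ∈ K, (if P k < P k' ∧ P k' < P k + N then (N : ℝ) else 0) ≤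
          (((Icc 2 (N + 1)).filter (fun a => (P k - 1 + a).Prime)).card : ℝ) * N := by
        intro k hk
        rw [← sum_filter, sum_const, nsmul_eq_mul]
        apply mul_le_mul_of_nonneg_right _ (Nat.cast_nonneg N)
        have hk1 := (hK k hk).1
        have : (K.filter (fun k' => P k < P k' ∧ P k' < P k + N)).card ≤
            ((Icc 2 (N + 1)).filter (fun a => (P k - 1 + a).Prime)).card := by
          apply card_le_card_of_injOn (fun k' => P k' - P k + 1)
          · intro k' hk'
            rw [mem_coe, mem_filter] at hk'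
            rw [mem_coe, mem_filter, mem_Icc]
            refine ⟨⟨show 2 ≤ P k' - P k + 1 by omega, show P k' - P k + 1 ≤ N + 1 by omega⟩, ?_⟩
            have : P k - 1 + (P k' - P k + 1) = P k' := by omega
            rw [this]
            exact P_prime k'
          · intro k' hk' k'' hk'' h
            rw [mem_coe, mem_filter] at hk' hk''
            apply P_mono.injective
            have h5 : P k' - P k + 1 = P k'' - P k + 1 := h
            omega
        exact_mod_cast this
      refine (sum_le_sum g1).trans ?_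
      rw [← sum_mul]
      apply mul_le_mul_of_nonneg_right _ (Nat.cast_nonneg N)
      have g2 : ∑ k ∈ K, ((Icc 2 (N + 1)).filter (fun a => (P k - 1 + a).Prime)).card =
          ∑ n ∈ K.image (fun k => P k - 1),
            ((Icc 2 (N + 1)).filter (fun a => (n + a).Prime)).card := by
        rw [sum_image]
        intro k hk k' hk' h
        apply P_mono.injective
        have h5 : P k - 1 = P k' - 1 := h
        have := (hK k hk).1
        have := (hK k' hk').1
        omega
      have g3 : ∑ n ∈ K.image (fun k => P k - 1),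
            ((Icc 2 (N + 1)).filter (fun a => (n + a).Prime)).card ≤ PS X (N + 1) := by
        unfold PS
        apply sum_le_sum_of_subset
        intro n hn
        rw [mem_image] at hn
        obtain ⟨k, hk, rfl⟩ := hn
        have h5 := hK k hk
        rw [mem_filter, mem_Ico]
        refine ⟨⟨by omega, by omega⟩, ?_⟩
        have : P k - 1 + 1 = P k := by omega
        rw [this]
        exact P_prime k
      rw [← g2] at g3
      exact_mod_cast g3
    have hpairs2 : ∑ k ∈ K, ∑ k' ∈ K, (if P k' < P k ∧ P k < P k' + N then (N : ℝ) else 0) ≤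
        PS X (N + 1) * N := by
      rw [sum_comm]
      exact hpairs
    calc ∑ k ∈ K, ∑ k' ∈ K, (if P k < P k' + N ∧ P k' < P k + N then (N : ℝ) else 0)
        ≤ ∑ k ∈ K, ∑ k' ∈ K, ((if k = k' then (N : ℝ) else 0) +
            (if P k < P k' ∧ P k' < P k + N then (N : ℝ) else 0) +
            (if P k' < P k ∧ P k < P k' + N then (N : ℝ) else 0)) :=
          sum_le_sum fun k hk => sum_le_sum fun k' hk' => e4 k hk k' hk'
      _ = ∑ k ∈ K, ∑ k' ∈ K, (if k = k' then (N : ℝ) else 0) +
            ∑ k ∈ K, ∑ k' ∈ K, (if P k < P k' ∧ P k' < P k + N then (N : ℝ) else 0) +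
            ∑ k ∈ K, ∑ k' ∈ K, (if P k' < P k ∧ P k < P k' + N then (N : ℝ) else 0) := by
          simp only [sum_add_distrib]
      _ ≤ K.card * N + PS X (N + 1) * N + PS X (N + 1) * N := by
          refine add_le_add (add_le_add ?_ hpairs) hpairs2
          apply le_of_eq
          have : ∀ k ∈ K, ∑ k' ∈ K, (if k = k' then (N : ℝ) else 0) = N := by
            intro k hk
            rw [sum_ite_eq, if_pos hk]
          rw [sum_congr rfl this, sum_const, nsmul_eq_mul]
      _ = _ := by ring
  have h4 : (∑ n ∈ E, (r n : ℝ)) = K.card * N := by exact_mod_cast h1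
  rw [h4] at h2
  exact h2.trans (mul_le_mul_of_nonneg_left h3 (Nat.cast_nonneg _))

open Classical in
/-- a set of indices which are followed by many primes -/
theorem case2 (X N m : ℕ) (K : Finset ℕ) (hK : ∀ k ∈ K, X + 1 ≤ P k ∧ P k ≤ 2 * X)
    (hm : ∀ k ∈ K, P (k + m) < P k + N) : K.card * m ≤ PS X (N + 1) := by
  have g1 : ∀ k ∈ K, m ≤ ((Icc 2 (N + 1)).filter (fun a => (P k - 1 + a).Prime)).card := by
    intro k hk
    have hk1 := (hK k hk).1
    have h1 := hm k hk
    calc m = (Ioc k (k + m)).card := by rw [Nat.card_Ioc]; omega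
      _ ≤ _ := by
        apply card_le_card_of_injOn (fun k' => P k' - P k + 1)
        · intro k' hk'
          rw [mem_coe, mem_Ioc] at hk'
          rw [mem_coe, mem_filter, mem_Icc]
          have h2 : P k < P k' := P_mono hk'.1
          have h3 : P k' ≤ P (k + m) := P_mono.monotone hk'.2
          refine ⟨⟨show 2 ≤ P k' - P k + 1 by omega, show P k' - P k + 1 ≤ N + 1 by omega⟩, ?_⟩
          have : P k - 1 + (P k' - P k + 1) = P k' := by omega
          rw [this]
          exact P_prime k'
        · intro k' hk' k'' hk'' h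
          rw [mem_coe, mem_Ioc] at hk' hk''
          apply P_mono.injective
          have h5 : P k' - P k + 1 = P k'' - P k + 1 := h
          have h2 : P k < P k' := P_mono hk'.1
          have h2' : P k < P k'' := P_mono hk''.1
          omega
  have g2 : ∑ k ∈ K, ((Icc 2 (N + 1)).filter (fun a => (P k - 1 + a).Prime)).card =
      ∑ n ∈ K.image (fun k => P k - 1),
        ((Icc 2 (N + 1)).filter (fun a => (n + a).Prime)).card := by
    rw [sum_image]
    intro k hk k' hk' h
    apply P_mono.injective
    have h5 : P k - 1 = P k' - 1 := h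
    have := (hK k hk).1
    have := (hK k' hk').1
    omega
  calc K.card * m = ∑ k ∈ K, m := by rw [sum_const, smul_eq_mul]
    _ ≤ ∑ k ∈ K, ((Icc 2 (N + 1)).filter (fun a => (P k - 1 + a).Prime)).card := sum_le_sum g1
    _ = _ := g2
    _ ≤ PS X (N + 1) := by
        unfold PS
        apply sum_le_sum_of_subset
        intro n hn
        rw [mem_image] at hn
        obtain ⟨k, hk, rfl⟩ := hn
        have h5 := hK k hk
        rw [mem_filter, mem_Ico]
        refine ⟨⟨by omega, by omega⟩, ?_⟩
        have : P k - 1 + 1 = P k := by omega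
        rw [this]
        exact P_prime k

end Pool.Agent.T2h81.AS
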