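import Pool.Agent.T2h81.Idx2

/-!
Almost all primes have a large gap among the next `J` gaps: conclusion.
-/

set_option autoImplicit false
set_option maxHeartbeats 4000000
set_option linter.unusedVariables false

open Finset Filter

namespace Pool.Agent.T2h81.AS

open Pool.Agent.H361R2.PP

theorem PS_mono {X N N' : ℕ} (h : N ≤ N') : PS X N ≤ PS X N' := by
  unfold PS
  refine sum_le_sum fun n _ => card_le_card (filter_subset_filter _ ?_)
  exact Icc_subset_Icc_right h

/-- facts valid for large `X` -/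
theorem large_facts (c Λ ε : ℝ) (hΛ : 0 < Λ) (hε : 0 < ε) : ∃ X₀ : ℕ, ∀ X : ℕ, X₀ ≤ X →
    3 ≤ Real.log X ∧ (X : ℝ) / Real.log X ≤ 2 * Pr X ∧ 0 < Pr X ∧
    Λ * Real.log X + 2 ≤ ε * Pr X ∧ 2 * (X : ℝ) + (Λ * Real.log X + 1) ≤ (X : ℝ) ^ 2 := by
  obtain ⟨X1, h1⟩ := Pool.Agent.H325R2.pnt (1 / 2) (by norm_num)
  have hlog : Tendsto (fun X : ℕ => Real.log (X : ℝ)) atTop atTop :=
    Real.tendsto_log_atTop.comp tendsto_natCast_atTop_atTop
  have h3 : ∀ᶠ X : ℕ in atTop, 3 ≤ Real.log (X : ℝ) := hlog.eventually_ge_atTop 3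
  have h4 : ∀ᶠ x : ℝ in atTop, (Λ + 1) * Real.log x ^ 2 * 2 ≤ ε * x := by
    have e1 : (fun L : ℝ => (Real.log L) ^ (2:ℝ)) =o[atTop] (fun L : ℝ => L ^ (1:ℝ)) :=
      isLittleO_log_rpow_rpow_atTop 2 one_pos
    have e2 := e1.def (show (0:ℝ) < ε / (2 * (Λ + 1)) by positivity)
    filter_upwards [e2, eventually_ge_atTop (1:ℝ)] with L hL hL1
    have hl0 := Real.log_nonneg hL1
    rw [Real.norm_eq_abs, Real.norm_eq_abs, abs_of_nonneg (Real.rpow_nonneg hl0 _),
      abs_of_nonneg (Real.rpow_nonneg (by linarith) _), Real.rpow_two, Real.rpow_one] at hL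
    rw [div_mul_eq_mul_div, le_div_iff₀ (by positivity)] at hL
    linarith
  have h5 : ∀ᶠ X : ℕ in atTop, Λ * Real.log X ≤ X := Pool.Agent.H862R2.PPSm5.logs_small Λ
  have h6 := (tendsto_natCast_atTop_atTop (R := ℝ)).eventually h4
  obtain ⟨X2, h2⟩ := Filter.eventually_atTop.1 (h3.and (h5.and h6))
  refine ⟨X1 + X2 + 4, fun X hX => ?_⟩
  obtain ⟨g1, g2, g3⟩ := h2 X (by omega)
  have g4 := abs_le.1 (h1 X (by omega))
  have hX4 : (4 : ℝ) ≤ X := by exact_mod_cast (by omega : 4 ≤ X)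
  have hL : 0 < Real.log (X : ℝ) := by linarith
  have h7 : (X : ℝ) / Real.log X ≤ 2 * Pr X := by
    rw [div_le_iff₀ hL]
    linarith [g4.1]
  have h8 : 0 < Pr X := by
    have : 0 < (X : ℝ) / Real.log X := by positivity
    linarith
  refine ⟨g1, h7, h8, ?_, ?_⟩
  · have h9 : (Λ + 1) * Real.log X ≤ ε * Pr X := by
      have h10 : (Λ + 1) * Real.log X ≤ ε * ((X : ℝ) / Real.log X) / 2 := by
        rw [le_div_iff₀ (by norm_num), ← mul_div_assoc, le_div_iff₀ hL]
        calc (Λ + 1) * Real.log X * 2 * Real.log X = (Λ + 1) * Real.log X ^ 2 * 2 := by ring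
          _ ≤ _ := g3
      have h11 : ε * ((X : ℝ) / Real.log X) ≤ ε * (2 * Pr X) := mul_le_mul_of_nonneg_left h7 hε.le
      linarith
    linarith
  · nlinarith

open Classical in
/-- for all but a proportion `ε` of the primes `p` of `[X, 2 X)` one of the `m` gaps following `p`
is at least `lam * log p` -/
theorem soon_rare (lam ε : ℝ) (hlam : 0 < lam) (hε : 0 < ε) :
    ∃ m : ℕ, 0 < m ∧ ∃ X₀ : ℕ, ∀ X : ℕ, X₀ ≤ X →
      (((idx X).filter (fun k => ¬ Soon lam m k)).card : ℝ) ≤ ε * (idx X).card := by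
  obtain ⟨lam', hlam'⟩ : ∃ l : ℝ, l = 2 * lam + 1 := ⟨_, rfl⟩
  have hlam'0 : 0 < lam' := by rw [hlam']; linarith
  obtain ⟨J, hJ0, X1, h1⟩ := bad_rare lam' (ε ^ 2 / 840) hlam'0 (by positivity)
  obtain ⟨Λ, hΛ⟩ : ∃ Λ : ℝ, Λ = J * lam' := ⟨_, rfl⟩
  have hJ1 : (1 : ℝ) ≤ J := by exact_mod_cast hJ0
  have hΛ1 : 1 ≤ Λ := by
    rw [hΛ]
    have : 1 ≤ lam' := by rw [hlam']; linarith
    nlinarith
  have hΛ0 : 0 < Λ := by linarith
  obtain ⟨m, hm⟩ := exists_nat_gt (104 * (2 * Λ + 1) / ε)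
  have hmr : (0 : ℝ) < m := lt_trans (by positivity) hm
  have hm0 : 0 < m := by exact_mod_cast hmr
  obtain ⟨X2, h2⟩ := pairs_le (Λ + 1) (by linarith)
  obtain ⟨X3, h3⟩ := pairs_le (2 * Λ + 1) (by linarith)
  obtain ⟨X4, h4⟩ := large_facts 0 Λ (ε / 4) hΛ0 (by positivity)
  refine ⟨m, hm0, X1 + X2 + X3 + X4 + 2, fun X hX => ?_⟩
  have hbad := h1 X (by omega)
  have hp1 := h2 X (by omega)
  have hp2 := h3 X (by omega)
  obtain ⟨hL3, hXL, hPr, hedge, hsq⟩ := h4 X (by omega)
  have hL : 0 < Real.log (X : ℝ) := by linarith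
  have hX0 : (0 : ℝ) < X := by exact_mod_cast (by omega : 0 < X)
  set L := Real.log (X : ℝ) with hLd
  rw [card_idx]
  obtain ⟨N, hN⟩ : ∃ N : ℕ, N = ⌈Λ * L⌉₊ := ⟨_, rfl⟩
  have hN1 : Λ * L ≤ N := by rw [hN]; exact Nat.le_ceil _
  have hN2 : (N : ℝ) < Λ * L + 1 := by
    rw [hN]
    exact Nat.ceil_lt_add_one (by positivity)
  have hNr : (0 : ℝ) < N := lt_of_lt_of_le (by positivity) hN1
  have hN0 : 0 < N := by exact_mod_cast hNr
  have hPS1 : (PS X (N + 1) : ℝ) ≤ 26 * (Λ + 1) * Pr X := by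
    refine le_trans ?_ hp1
    have : N + 1 ≤ ⌊(Λ + 1) * L⌋₊ := by
      apply Nat.le_floor
      push_cast
      linarith
    exact_mod_cast PS_mono this
  have hPS2 : (PS X (2 * N + 1) : ℝ) ≤ 26 * (2 * Λ + 1) * Pr X := by
    refine le_trans ?_ hp2
    have : 2 * N + 1 ≤ ⌊(2 * Λ + 1) * L⌋₊ := by
      apply Nat.le_floor
      push_cast
      linarith
    exact_mod_cast PS_mono this
  set K := (idx X).filter (fun k => ¬ Soon lam m k) with hK
  set K0 := K.filter (fun k => ¬ (X + 1 ≤ P k ∧ P k + N ≤ 2 * X)) with hK0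
  set Kr := K.filter (fun k => X + 1 ≤ P k ∧ P k + N ≤ 2 * X) with hKr
  set K2 := Kr.filter (fun k => P (k + m) < P k + 2 * N) with hK2
  set K1 := Kr.filter (fun k => ¬ P (k + m) < P k + 2 * N) with hK1
  have hcard : (K.card : ℝ) = K0.card + (K2.card + K1.card) := by
    have e1 : Kr.card + K0.card = K.card := card_filter_add_card_filter_not _
    have e2 : K2.card + K1.card = Kr.card := card_filter_add_card_filter_not _
    rw [← e1, ← e2]
    push_cast
    ring
  -- the edge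
  have hK0c : (K0.card : ℝ) ≤ ε / 4 * Pr X := by
    refine le_trans ?_ hedge
    have h5 : K0.card ≤ (insert X (Ico (2 * X + 1 - N) (2 * X))).card := by
      apply card_le_card_of_injOn P
      · intro k hk
        rw [mem_coe, hK0, mem_filter, hK, mem_filter, mem_idx] at hk
        rw [mem_coe, mem_insert, mem_Ico]
        obtain ⟨⟨⟨g1, g2⟩, -⟩, g3⟩ := hk
        by_cases hc : P k = X
        · exact Or.inl hc
        · right
          constructor
          · by_contra hcon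
            exact g3 ⟨by omega, by omega⟩
          · exact g2
      · intro k _ k' _ h
        exact P_mono.injective h
    have h6 : K0.card ≤ N + 1 := by
      refine h5.trans ((card_insert_le _ _).trans ?_)
      rw [Nat.card_Ico]
      omega
    have h7 : (K0.card : ℝ) ≤ N + 1 := by exact_mod_cast h6
    linarith
  -- many primes
  have hK2c : (K2.card : ℝ) ≤ ε / 4 * Pr X := by
    have h5 := case2 X (2 * N) m K2 (by
      intro k hk
      rw [hK2, mem_filter, hKr, mem_filter] at hk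
      obtain ⟨⟨-, g1, g2⟩, -⟩ := hk
      exact ⟨g1, by omega⟩) (by
      intro k hk
      rw [hK2, mem_filter] at hk
      exact hk.2)
    have h6 : (K2.card : ℝ) * m ≤ 26 * (2 * Λ + 1) * Pr X := by
      refine le_trans ?_ hPS2
      exact_mod_cast h5
    have h7 : 26 * (2 * Λ + 1) * Pr X ≤ (ε / 4 * Pr X) * m := by
      rw [div_lt_iff₀ hε] at hm
      have h8 : 26 * (2 * Λ + 1) ≤ ε / 4 * m := by linarith
      calc 26 * (2 * Λ + 1) * Pr X ≤ (ε / 4 * m) * Pr X := mul_le_mul_of_nonneg_right h8 hPr.le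
        _ = _ := by ring
    exact le_of_mul_le_mul_right (h6.trans h7) hmr
  -- exceptional integers
  have hK1c : (K1.card : ℝ) ≤ ε / 2 * Pr X := by
    set E := (Ico X (2 * X)).filter (fun n => Bad lam' J X n) with hE
    have hK1r : ∀ k ∈ K1, (k ∈ idx X ∧ ¬ Soon lam m k) ∧ (X + 1 ≤ P k ∧ P k + N ≤ 2 * X) ∧
        P k + 2 * N ≤ P (k + m) := by
      intro k hk
      rw [hK1, mem_filter, hKr, mem_filter, hK, mem_filter] at hk
      exact ⟨hk.1.1, hk.1.2, not_lt.1 hk.2⟩
    have h5 := case1 X N hN0 K1 E (fun k hk => (hK1r k hk).2.1) (by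
      intro k hk n hn1 hn2
      obtain ⟨⟨-, g1⟩, ⟨g2, g3⟩, g4⟩ := hK1r k hk
      rw [hE, mem_filter, mem_Ico]
      refine ⟨⟨by omega, by omega⟩, ?_⟩
      intro i hi
      unfold Soon at g1
      push Not at g1
      have hpos : 0 < lam' * L := by positivity
      have hir : ((i : ℝ) + 1) * (lam' * L) ≤ Λ * L := by
        rw [hΛ, mul_assoc]
        apply mul_le_mul_of_nonneg_right _ hpos.le
        exact_mod_cast hi
      have hn1r : (P k : ℝ) ≤ n := by exact_mod_cast hn1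
      have hn2r : (n : ℝ) + 1 ≤ P k + N := by exact_mod_cast hn2
      have hPkr : (P k : ℝ) + N ≤ 2 * X := by exact_mod_cast g3
      have hPmr : (P k : ℝ) + 2 * N ≤ P (k + m) := by exact_mod_cast g4
      have hy0 : (P k : ℝ) ≤ n + i * (lam' * L) := by
        have : 0 ≤ (i : ℝ) * (lam' * L) := by positivity
        linarith
      have hy1 : (n : ℝ) + i * (lam' * L) < P k + 2 * N := by linarith
      obtain ⟨q, hq, hq1, hq2⟩ := prime_between (m := m) (G := lam' * L) hy0 (by linarith) (by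
        intro i' hi' hle
        refine lt_of_lt_of_le (g1 i' hi') ?_
        have g5 : (0 : ℝ) < P (k + i') := by exact_mod_cast (P_prime _).pos
        have g6 : (P (k + i') : ℝ) ≤ (X : ℝ) ^ 2 := by
          have g7 : (P (k + i') : ℝ) ≤ 2 * X + N := by linarith
          linarith
        have g7 : Real.log (P (k + i')) ≤ 2 * L := by
          calc Real.log (P (k + i')) ≤ Real.log ((X : ℝ) ^ 2) := Real.log_le_log g5 g6
            _ = 2 * L := by rw [Real.log_pow, hLd]; norm_num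
        calc lam * Real.log (P (k + i')) ≤ lam * (2 * L) :=
              mul_le_mul_of_nonneg_left g7 hlam.le
          _ ≤ lam' * L := by rw [hlam']; nlinarith)
      have hqn : n ≤ q := by
        have : (n : ℝ) ≤ q := by
          have : 0 ≤ (i : ℝ) * (lam' * L) := by positivity
          linarith
        exact_mod_cast this
      refine ⟨q - n, ?_, ?_, ?_⟩
      · rw [Nat.cast_sub hqn]
        linarith
      · rw [Nat.cast_sub hqn]
        linarith
      · have : n + (q - n) = q := by omega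
        rw [this]
        exact hq)
    have hK1le : (K1.card : ℝ) ≤ Pr X := by
      rw [← card_idx]
      have : K1 ⊆ idx X := fun k hk => (hK1r k hk).1.1
      exact_mod_cast card_le_card this
    have h6 : ((K1.card : ℝ) * N) ^ 2 ≤ (ε ^ 2 / 840 * X) * ((105 * Λ * Pr X) * N) := by
      refine h5.trans ?_
      apply mul_le_mul hbad _ (by positivity) (by positivity)
      apply mul_le_mul_of_nonneg_right _ hNr.le
      have : Pr X + 2 * (26 * (Λ + 1) * Pr X) ≤ 105 * Λ * Pr X := by nlinarith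
      linarith
    have h7 : (ε ^ 2 / 840 * X) * ((105 * Λ * Pr X) * N) ≤ ((ε / 2 * Pr X) * N) ^ 2 := by
      have h8 : (X : ℝ) ≤ 2 * Pr X * L := by
        rwa [div_le_iff₀ hL] at hXL
      have h9 : Λ * (X : ℝ) ≤ 2 * Pr X * N := by
        calc Λ * (X : ℝ) ≤ Λ * (2 * Pr X * L) := mul_le_mul_of_nonneg_left h8 hΛ0.le
          _ = 2 * Pr X * (Λ * L) := by ring
          _ ≤ 2 * Pr X * N := mul_le_mul_of_nonneg_left hN1 (by positivity)
      calc (ε ^ 2 / 840 * X) * ((105 * Λ * Pr X) * N) =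
          (ε ^ 2 / 8 * Pr X * N) * (Λ * X) := by ring
        _ ≤ (ε ^ 2 / 8 * Pr X * N) * (2 * Pr X * N) := mul_le_mul_of_nonneg_left h9 (by positivity)
        _ = ((ε / 2 * Pr X) * N) ^ 2 := by ring
    have h8 : (K1.card : ℝ) * N ≤ (ε / 2 * Pr X) * N :=
      (pow_le_pow_iff_left₀ (by positivity) (by positivity) two_ne_zero).1 (h6.trans h7)
    exact le_of_mul_le_mul_right h8 hNr
  rw [hcard]
  linarith

end Pool.Agent.T2h81.AS
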