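import Pool.Agent.T2h81.Idx3

/-!
Almost all primes are followed by a positive proportion of large gaps.
-/

set_option autoImplicit false
set_option maxHeartbeats 4000000
set_option linter.unusedVariables false

open Finset Filter

namespace Pool.Agent.T2h81.AS

open Pool.Agent.H361R2.PP

/-- the large gaps among the `m` gaps which follow `P k` -/
noncomputable def lg (lam : ℝ) (m k : ℕ) : Finset ℕ :=
  (range m).filter (fun i => lam * Real.log (P (k + i)) ≤ (P (k + i + 1) : ℝ) - P (k + i))

theorem soon_iff {lam : ℝ} {J k : ℕ} : Soon lam J k ↔ (lg lam J k).Nonempty := by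
  unfold Soon lg
  constructor
  · rintro ⟨i, hi, h⟩
    exact ⟨i, mem_filter.2 ⟨mem_range.2 hi, h⟩⟩
  · rintro ⟨i, h⟩
    rw [mem_filter, mem_range] at h
    exact ⟨i, h.1, h.2⟩

open Classical in
theorem blocks_le (lam : ℝ) (J r m k : ℕ) (hJ : 0 < J) (hm : r * J ≤ m) :
    ((range r).filter (fun j => Soon lam J (k + j * J))).card ≤ (lg lam m k).card := by
  have hex : ∀ j, ∃ i : ℕ, Soon lam J (k + j * J) → (i < J ∧
      lam * Real.log (P (k + j * J + i)) ≤ (P (k + j * J + i + 1) : ℝ) - P (k + j * J + i)) := by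
    intro j
    by_cases h : Soon lam J (k + j * J)
    · obtain ⟨i, hi, h2⟩ := h
      exact ⟨i, fun _ => ⟨hi, h2⟩⟩
    · exact ⟨0, fun h' => absurd h' h⟩
  choose f hf using hex
  apply card_le_card_of_injOn (fun j => j * J + f j)
  · intro j hj
    rw [mem_coe, mem_filter, mem_range] at hj
    obtain ⟨h1, h2⟩ := hf j hj.2
    rw [mem_coe]
    unfold lg
    rw [mem_filter, mem_range]
    have h3 : k + (j * J + f j) = k + j * J + f j := by ring
    refine ⟨?_, ?_⟩
    · have h4 : (j + 1) * J ≤ r * J := Nat.mul_le_mul_right _ hj.1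
      have h5 : (j + 1) * J = j * J + J := by ring
      show j * J + f j < m
      omega
    · show lam * Real.log (P (k + (j * J + f j))) ≤
        (P (k + (j * J + f j) + 1) : ℝ) - P (k + (j * J + f j))
      rw [h3]
      exact h2
  · intro j hj j' hj' h
    rw [mem_coe, mem_filter, mem_range] at hj hj'
    have h1 := (hf j hj.2).1
    have h2 := (hf j' hj'.2).1
    have h3 : j * J + f j = j' * J + f j' := h
    have h4 : (j * J + f j) / J = j := by
      rw [mul_comm, Nat.mul_add_div hJ, Nat.div_eq_of_lt h1, add_zero]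
    have h5 : (j' * J + f j') / J = j' := by
      rw [mul_comm, Nat.mul_add_div hJ, Nat.div_eq_of_lt h2, add_zero]
    rw [← h4, ← h5, h3]

/-- comparison of consecutive dyadic intervals -/
theorem idx_double (m : ℕ) : ∃ X₀ : ℕ, ∀ X : ℕ, X₀ ≤ X →
    ((idx (2 * X)).card : ℝ) ≤ 6 * (idx X).card ∧ m ≤ (idx (2 * X)).card := by
  obtain ⟨X1, h1⟩ := Pool.Agent.H325R2.pnt (1 / 2) (by norm_num)
  obtain ⟨X2, h2⟩ := large_facts 0 1 1 one_pos one_pos
  obtain ⟨X3, h3⟩ := exists_nat_ge (Real.exp m)
  refine ⟨X1 + X2 + X3 + 2, fun X hX => ?_⟩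
  rw [card_idx, card_idx]
  have hX0 : (0 : ℝ) < X := by exact_mod_cast (by omega : 0 < X)
  have g1 := abs_le.1 (h1 X (by omega))
  have g2 := abs_le.1 (h1 (2 * X) (by omega))
  obtain ⟨g3, -, -, -, -⟩ := h2 X (by omega)
  obtain ⟨g4, -, -, g5, -⟩ := h2 (2 * X) (by omega)
  push_cast at g2 g4 g5
  have hL : 0 < Real.log (X : ℝ) := by linarith
  have hLL : Real.log (X : ℝ) ≤ Real.log (2 * (X : ℝ)) :=
    Real.log_le_log hX0 (by linarith)
  constructor
  · have e1 : Pr (2 * X) * Real.log (X : ℝ) ≤ 3 * X := by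
      have : Pr (2 * X) * Real.log (X : ℝ) ≤ Pr (2 * X) * Real.log (2 * (X : ℝ)) := by
        apply mul_le_mul_of_nonneg_left hLL
        unfold Pr
        positivity
      linarith [g2.2]
    have e2 : (X : ℝ) ≤ 2 * Pr X * Real.log (X : ℝ) := by linarith [g1.1]
    have e3 : Pr (2 * X) * Real.log (X : ℝ) ≤ (6 * Pr X) * Real.log (X : ℝ) := by linarith
    exact le_of_mul_le_mul_right e3 hL
  · have e1 : (m : ℝ) ≤ Real.log (2 * (X : ℝ)) := by
      rw [Real.le_log_iff_exp_le (by positivity)]
      have : Real.exp m ≤ X := h3.trans (by exact_mod_cast (by omega : X3 ≤ X))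
      linarith
    have e2 : (m : ℝ) ≤ ((idx (2 * X)).card : ℝ) := by
      rw [card_idx]
      linarith
    exact_mod_cast e2

/-- the index `k + i` with `i < m` belongs to the next dyadic interval at the latest -/
theorem idx_shift {X m k i : ℕ} (hk : k ∈ idx X) (hi : i < m) (hm : m ≤ (idx (2 * X)).card) :
    k + i ∈ idx X ∪ idx (2 * X) := by
  rw [mem_idx] at hk
  rw [mem_union, mem_idx, mem_idx]
  have h1 : X ≤ P (k + i) := hk.1.trans (P_mono.monotone (Nat.le_add_right _ _))
  by_cases h2 : P (k + i) < 2 * X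
  · exact Or.inl ⟨h1, h2⟩
  · right
    refine ⟨not_lt.1 h2, ?_⟩
    by_contra h3
    have h4 : idx (2 * X) ⊆ Ioo k (k + i) := by
      intro l hl
      rw [mem_idx] at hl
      rw [mem_Ioo]
      constructor
      · apply P_mono.lt_iff_lt.1
        omega
      · apply P_mono.lt_iff_lt.1
        omega
    have h5 := card_le_card h4
    rw [Nat.card_Ioo] at h5
    omega

open Classical in
/-- for all but a proportion `ε` of the primes `p` of `[X, 2 X)` at least `c m` of the `m` gaps
following `p` are large -/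
theorem many_rare (lam ε : ℝ) (hlam : 0 < lam) (hε : 0 < ε) :
    ∃ c : ℝ, 0 < c ∧ ∃ m₀ : ℕ, ∀ m : ℕ, m₀ ≤ m → ∃ X₀ : ℕ, ∀ X : ℕ, X₀ ≤ X →
      (((idx X).filter (fun k => ((lg lam m k).card : ℝ) < c * m)).card : ℝ) ≤
        ε * (idx X).card := by
  obtain ⟨J, hJ, X1, h1⟩ := soon_rare lam (ε / 14) hlam (by positivity)
  have hJr : (0 : ℝ) < J := by exact_mod_cast hJ
  refine ⟨1 / (4 * J), by positivity, J, fun m hm => ?_⟩
  obtain ⟨X2, h2⟩ := idx_double m
  refine ⟨X1 + X2 + 1, fun X hX => ?_⟩
  obtain ⟨g1, g2⟩ := h2 X (by omega)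
  have k1 := h1 X (by omega)
  have k2 := h1 (2 * X) (by omega)
  obtain ⟨r, hr⟩ : ∃ r : ℕ, r = m / J := ⟨_, rfl⟩
  have hr1 : 1 ≤ r := by rw [hr]; exact (Nat.one_le_div_iff hJ).2 hm
  have hrm : r * J ≤ m := by rw [hr]; exact Nat.div_mul_le_self m J
  have hmr : m < (r + 1) * J := by
    rw [hr]
    exact Nat.lt_mul_of_div_lt (Nat.lt_succ_self _) hJ |>.trans_le le_rfl
  have hrr : (0 : ℝ) < r := by exact_mod_cast hr1
  set Bd := (idx X).filter (fun k => ((lg lam m k).card : ℝ) < 1 / (4 * J) * m) with hBd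
  set bad : Finset ℕ := (idx X).filter (fun k => ¬ Soon lam J k) ∪
    (idx (2 * X)).filter (fun k => ¬ Soon lam J k) with hbad
  -- each bad index has many bad blocks
  have e1 : ∀ k ∈ Bd, (r : ℝ) / 2 ≤
      (((range r).filter (fun j => ¬ Soon lam J (k + j * J))).card : ℝ) := by
    intro k hk
    have h3 := (mem_filter.1 hk).2
    have h4 : (((range r).filter (fun j => Soon lam J (k + j * J))).card : ℝ) ≤
        (lg lam m k).card := by exact_mod_cast blocks_le lam J r m k hJ hrm
    have h5 : (((range r).filter (fun j => Soon lam J (k + j * J))).card : ℝ) +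
        ((range r).filter (fun j => ¬ Soon lam J (k + j * J))).card = r := by
      have := card_filter_add_card_filter_not (s := range r) (fun j => Soon lam J (k + j * J))
      rw [card_range] at this
      exact_mod_cast this
    have h6 : 1 / (4 * (J : ℝ)) * m ≤ r / 2 := by
      have h7 : (m : ℝ) ≤ (r + 1) * J := by exact_mod_cast hmr.le
      have h8 : (r : ℝ) + 1 ≤ 2 * r := by
        have : (1 : ℝ) ≤ r := by exact_mod_cast hr1
        linarith
      rw [one_div, inv_mul_le_iff₀ (by positivity)]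
      calc (m : ℝ) ≤ (r + 1) * J := h7
        _ ≤ (2 * r) * J := mul_le_mul_of_nonneg_right h8 hJr.le
        _ = _ := by ring
    linarith
  have e2 : (Bd.card : ℝ) * (r / 2) ≤ r * bad.card := by
    calc (Bd.card : ℝ) * (r / 2) = ∑ k ∈ Bd, (r : ℝ) / 2 := by rw [sum_const, nsmul_eq_mul]
      _ ≤ ∑ k ∈ Bd, (((range r).filter (fun j => ¬ Soon lam J (k + j * J))).card : ℝ) :=
          sum_le_sum e1
      _ = ∑ k ∈ Bd, ∑ j ∈ range r, (if ¬ Soon lam J (k + j * J) then (1 : ℝ) else 0) := by
          refine sum_congr rfl fun k _ => ?_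
          rw [← sum_filter, sum_const, nsmul_eq_mul, mul_one]
      _ = ∑ j ∈ range r, ((Bd.filter (fun k => ¬ Soon lam J (k + j * J))).card : ℝ) := by
          rw [sum_comm]
          refine sum_congr rfl fun j _ => ?_
          rw [← sum_filter, sum_const, nsmul_eq_mul, mul_one]
      _ ≤ ∑ j ∈ range r, (bad.card : ℝ) := by
          refine sum_le_sum fun j hj => ?_
          rw [mem_range] at hj
          have : (Bd.filter (fun k => ¬ Soon lam J (k + j * J))).card ≤ bad.card := by
            apply card_le_card_of_injOn (fun k => k + j * J)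
            · intro k hk
              rw [mem_coe, mem_filter] at hk
              have h6 : j * J < m := by
                have h7 : (j + 1) * J ≤ r * J := Nat.mul_le_mul_right _ hj
                have h8 : (j + 1) * J = j * J + J := by ring
                omega
              have h5 := idx_shift (mem_filter.1 hk.1).1 h6 g2
              rw [mem_coe, hbad, ← filter_union, mem_filter]
              exact ⟨h5, hk.2⟩
            · intro k _ k' _ h
              have h5 : k + j * J = k' + j * J := h
              omega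
          exact_mod_cast this
      _ = r * bad.card := by rw [sum_const, card_range, nsmul_eq_mul]
  have e3 : (bad.card : ℝ) ≤ ε / 2 * (idx X).card := by
    have h3 : (bad.card : ℝ) ≤ (((idx X).filter (fun k => ¬ Soon lam J k)).card : ℝ) +
        ((idx (2 * X)).filter (fun k => ¬ Soon lam J k)).card := by
      exact_mod_cast card_union_le _ _
    have h4 : ε / 14 * (idx (2 * X)).card ≤ ε / 14 * (6 * (idx X).card) :=
      mul_le_mul_of_nonneg_left g1 (by positivity)
    linarith
  have e4 : (Bd.card : ℝ) * (r / 2) ≤ (ε * (idx X).card) * (r / 2) := by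
    refine e2.trans ?_
    calc (r : ℝ) * bad.card ≤ r * (ε / 2 * (idx X).card) := mul_le_mul_of_nonneg_left e3 hrr.le
      _ = _ := by ring
  exact le_of_mul_le_mul_right e4 (by positivity)

end Pool.Agent.T2h81.AS
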